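import Pool.Agent.Lib.ANT.Perron
import Pool.Agent.Lib.ANT.DivisorBound
import Pool.Agent.Work.MP_5d318d_nt.Chars

-- merged part: Pool.Agent.Work.MP_814e7e_nt.LogDer
section
-- merged part: Pool.Agent.Work.MP_814e7e_nt.Basic
section
/-!
Counting primitive characters of conductor at most `Q`.
-/

set_option autoImplicit false

noncomputable section

open Finset

namespace Pool.Agent.Work.MP_814e7e_nt

open Classical in
/-- Sum of `F` over the primitive characters of conductor in `[1, Q]`. -/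
def psumQ (Q : ℕ) (F : (q : ℕ) → DirichletCharacter ℂ q → ℝ) : ℝ :=
  ∑ q ∈ Icc 1 Q, ∑ χ : DirichletCharacter ℂ q with χ.IsPrimitive, F q χ

open Classical in
/-- Number of primitive characters of conductor in `[1, Q]` with the property `P`. -/
def cnt (Q : ℕ) (P : (q : ℕ) → DirichletCharacter ℂ q → Prop) : ℝ :=
  psumQ Q fun q χ => if P q χ then 1 else 0

lemma psumQ_mono {Q : ℕ} {F G : (q : ℕ) → DirichletCharacter ℂ q → ℝ}
    (h : ∀ q, 1 ≤ q → q ≤ Q → ∀ χ : DirichletCharacter ℂ q, χ.IsPrimitive → F q χ ≤ G q χ) :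
    psumQ Q F ≤ psumQ Q G := by
  classical
  unfold psumQ
  refine sum_le_sum fun q hq => sum_le_sum fun χ hχ => ?_
  exact h q (mem_Icc.1 hq).1 (mem_Icc.1 hq).2 χ (mem_filter.1 hχ).2

lemma psumQ_add (Q : ℕ) (F G : (q : ℕ) → DirichletCharacter ℂ q → ℝ) :
    psumQ Q (fun q χ => F q χ + G q χ) = psumQ Q F + psumQ Q G := by
  unfold psumQ
  simp only [sum_add_distrib]

lemma psumQ_mul (Q : ℕ) (c : ℝ) (F : (q : ℕ) → DirichletCharacter ℂ q → ℝ) :
    psumQ Q (fun q χ => c * F q χ) = c * psumQ Q F := by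
  unfold psumQ
  simp only [mul_sum]

lemma psumQ_sum {ι : Type} (Q : ℕ) (s : Finset ι)
    (F : ι → (q : ℕ) → DirichletCharacter ℂ q → ℝ) :
    psumQ Q (fun q χ => ∑ i ∈ s, F i q χ) = ∑ i ∈ s, psumQ Q (F i) := by
  unfold psumQ
  rw [sum_comm (s := s)]
  refine sum_congr rfl fun q _ => ?_
  rw [sum_comm]

lemma cnt_nonneg (Q : ℕ) (P : (q : ℕ) → DirichletCharacter ℂ q → Prop) : 0 ≤ cnt Q P := by
  unfold cnt psumQ
  refine sum_nonneg fun q _ => sum_nonneg fun χ _ => ?_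
  dsimp only
  split_ifs <;> norm_num

/-- Markov's inequality. -/
lemma cnt_le_psumQ {Q : ℕ} {P : (q : ℕ) → DirichletCharacter ℂ q → Prop}
    {F : (q : ℕ) → DirichletCharacter ℂ q → ℝ} (h0 : ∀ q χ, 0 ≤ F q χ)
    (h : ∀ q, 1 ≤ q → q ≤ Q → ∀ χ : DirichletCharacter ℂ q, χ.IsPrimitive → P q χ → 1 ≤ F q χ) :
    cnt Q P ≤ psumQ Q F := by
  refine psumQ_mono fun q h1 h2 χ hχ => ?_
  split_ifs with hP
  · exact h q h1 h2 χ hχ hP
  · exact h0 q χ

lemma cnt_mono {Q : ℕ} {P P' : (q : ℕ) → DirichletCharacter ℂ q → Prop}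
    (h : ∀ q, 1 ≤ q → q ≤ Q → ∀ χ : DirichletCharacter ℂ q, χ.IsPrimitive → P q χ → P' q χ) :
    cnt Q P ≤ cnt Q P' := by
  classical
  refine cnt_le_psumQ (fun q χ => ?_) fun q h1 h2 χ hχ hP => ?_
  · split_ifs <;> norm_num
  · rw [if_pos (h q h1 h2 χ hχ hP)]

lemma cnt_or (Q : ℕ) (P P' : (q : ℕ) → DirichletCharacter ℂ q → Prop) :
    cnt Q (fun q χ => P q χ ∨ P' q χ) ≤ cnt Q P + cnt Q P' := by
  classical
  rw [cnt, cnt, cnt, ← psumQ_add]
  refine psumQ_mono fun q _ _ χ _ => ?_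
  by_cases h : P q χ <;> by_cases h' : P' q χ <;> simp [h, h']

lemma cnt_exists {ι : Type} (Q : ℕ) (s : Finset ι)
    (P : ι → (q : ℕ) → DirichletCharacter ℂ q → Prop) :
    cnt Q (fun q χ => ∃ i ∈ s, P i q χ) ≤ ∑ i ∈ s, cnt Q (P i) := by
  classical
  simp only [cnt]
  rw [← psumQ_sum]
  refine cnt_le_psumQ (fun q χ => sum_nonneg fun i _ => ?_) fun q _ _ χ _ hP => ?_
  · split_ifs <;> norm_num
  · obtain ⟨i, hi, hP⟩ := hP
    refine le_trans ?_ (single_le_sum (f := fun i => if P i q χ then (1 : ℝ) else 0)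
      (fun i _ => by split_ifs <;> norm_num) hi)
    simp [hP]

lemma cnt_one (Q : ℕ) : cnt Q (fun q _ => q = 1) ≤ 1 := by
  classical
  unfold cnt psumQ
  by_cases hQ : 1 ∈ Icc 1 Q
  · rw [sum_eq_single_of_mem 1 hQ]
    · refine (sum_le_card_nsmul _ _ 1 fun χ _ => by simp).trans ?_
      have h1 : (univ.filter fun χ : DirichletCharacter ℂ 1 => χ.IsPrimitive).card ≤ 1 :=
        card_le_one.2 fun a _ b _ => Subsingleton.elim a b
      simpa using h1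
    · intro q _ hq
      simp [hq]
  · rw [sum_eq_zero]
    · norm_num
    · intro q hq
      have : q ≠ 1 := fun h => hQ (h ▸ hq)
      simp [this]

end Pool.Agent.Work.MP_814e7e_nt
end
end

-- merged part: Pool.Agent.Work.MP_814e7e_nt.Blocks
section
/-!
Dyadic blocks of the short sum over prime powers.
-/

set_option autoImplicit false

noncomputable section

open Finset ArithmeticFunction

namespace Pool.Agent.Work.MP_814e7e_nt

/-- The weight of `n` in the short sum. -/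
def wt (σ y : ℝ) (n : ℕ) : ℝ := vonMangoldt n * (n : ℝ) ^ (-σ) * max (1 - n / y) 0

/-- The primes of a dyadic block. -/
def blk (j : ℕ) : Finset ℕ := (Ico (2 ^ j) (2 ^ (j + 1))).filter Nat.Prime

/-- The sum over the primes of a dyadic block. -/
def bs (σ y : ℝ) (j : ℕ) {q : ℕ} (χ : DirichletCharacter ℂ q) : ℂ :=
  ∑ p ∈ blk j, ((wt σ y p : ℝ) : ℂ) * χ (p : ZMod q)

lemma wt_nonneg (σ y : ℝ) (n : ℕ) : 0 ≤ wt σ y n := by
  unfold wt
  have := vonMangoldt_nonneg (n := n)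
  have : 0 ≤ max (1 - n / y) (0 : ℝ) := le_max_right _ _
  positivity

lemma wt_le {σ y : ℝ} (hσ : 0 ≤ σ) (hy : 0 < y) {j n : ℕ} (hn : 2 ^ j ≤ n) :
    wt σ y n ≤ vonMangoldt n * ((2 : ℝ) ^ j) ^ (-σ) := by
  unfold wt
  have h0 := vonMangoldt_nonneg (n := n)
  have h1 : max (1 - n / y) (0 : ℝ) ≤ 1 :=
    max_le (by have : (0 : ℝ) ≤ n / y := by positivity
               linarith) zero_le_one
  have h2 : (n : ℝ) ^ (-σ) ≤ ((2 : ℝ) ^ j) ^ (-σ) :=
    Real.rpow_le_rpow_of_nonpos (by positivity) (by exact_mod_cast hn) (by linarith)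
  calc _ ≤ vonMangoldt n * (n : ℝ) ^ (-σ) * 1 := by gcongr
    _ ≤ _ := by rw [mul_one]; gcongr

lemma sum_blk_log_le (j : ℕ) : ∑ p ∈ blk j, vonMangoldt p ≤ 3 * (2 : ℝ) ^ j := by
  have h := Chebyshev.theta_le_log4_mul_x (x := ((2 ^ (j + 1) : ℕ) : ℝ)) (by positivity)
  rw [Chebyshev.theta, Nat.floor_natCast] at h
  have h4 : Real.log 4 ≤ 3 / 2 := by
    have : Real.log 4 = 2 * Real.log 2 := by
      rw [show (4 : ℝ) = 2 ^ 2 by norm_num, Real.log_pow]; norm_num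
    have := Real.log_two_lt_d9
    linarith
  calc ∑ p ∈ blk j, vonMangoldt p = ∑ p ∈ blk j, Real.log p :=
        sum_congr rfl fun p hp => vonMangoldt_apply_prime (mem_filter.1 hp).2
    _ ≤ ∑ p ∈ (Ioc 0 (2 ^ (j + 1)) : Finset ℕ) with p.Prime, Real.log p := by
        refine sum_le_sum_of_subset_of_nonneg (fun p hp => ?_) fun p _ _ => Real.log_natCast_nonneg p
        obtain ⟨h1, h2⟩ := mem_filter.1 hp
        exact mem_filter.2 ⟨mem_Ioc.2 ⟨h2.pos, (mem_Ico.1 h1).2.le⟩, h2⟩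
    _ ≤ 3 / 2 * ((2 ^ (j + 1) : ℕ) : ℝ) := h.trans (by gcongr)
    _ = _ := by push_cast; ring

lemma two_pow_mul_rpow (j : ℕ) (a : ℝ) :
    (2 : ℝ) ^ j * ((2 : ℝ) ^ j) ^ (-a) = ((2 : ℝ) ^ j) ^ (1 - a) := by
  rw [sub_eq_add_neg, Real.rpow_add (by positivity), Real.rpow_one]

lemma sum_blk_le {σ y : ℝ} (hσ : 0 ≤ σ) (hy : 0 < y) (j : ℕ) :
    ∑ p ∈ blk j, wt σ y p ≤ 3 * ((2 : ℝ) ^ j) ^ (1 - σ) := by
  calc _ ≤ ∑ p ∈ blk j, vonMangoldt p * ((2 : ℝ) ^ j) ^ (-σ) :=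
        sum_le_sum fun p hp => wt_le hσ hy (mem_Ico.1 (mem_filter.1 hp).1).1
    _ ≤ 3 * (2 : ℝ) ^ j * ((2 : ℝ) ^ j) ^ (-σ) := by
        rw [← sum_mul]; gcongr; exact sum_blk_log_le j
    _ = _ := by rw [mul_assoc, two_pow_mul_rpow]

lemma sum_blk_sq_le {σ y : ℝ} (hσ : 0 ≤ σ) (hy : 0 < y) (j : ℕ) :
    ∑ p ∈ blk j, wt σ y p ^ 2 ≤ 3 * ((j : ℝ) + 1) * ((2 : ℝ) ^ j) ^ (1 - 2 * σ) := by
  have h1 : ∀ p ∈ blk j, wt σ y p ≤ ((j : ℝ) + 1) * ((2 : ℝ) ^ j) ^ (-σ) := fun p hp => by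
    obtain ⟨h1, h2⟩ := mem_filter.1 hp
    refine (wt_le hσ hy (mem_Ico.1 h1).1).trans ?_
    gcongr
    have h3 : (p : ℝ) ≤ 2 ^ (j + 1) := by exact_mod_cast (mem_Ico.1 h1).2.le
    have h4 := Real.log_le_log (by exact_mod_cast h2.pos) h3
    rw [Real.log_pow] at h4
    have h5 := Real.log_two_lt_d9
    have h6 : ((j + 1 : ℕ) : ℝ) * Real.log 2 ≤ ((j + 1 : ℕ) : ℝ) * 1 := by gcongr; linarith
    have := vonMangoldt_le_log (n := p)
    push_cast at h4 h6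
    linarith
  calc _ ≤ ∑ p ∈ blk j, ((j : ℝ) + 1) * ((2 : ℝ) ^ j) ^ (-σ) * wt σ y p :=
        sum_le_sum fun p hp => by
          rw [sq]; exact mul_le_mul_of_nonneg_right (h1 p hp) (wt_nonneg _ _ _)
    _ ≤ ((j : ℝ) + 1) * ((2 : ℝ) ^ j) ^ (-σ) * (3 * ((2 : ℝ) ^ j) ^ (1 - σ)) := by
        rw [← mul_sum]; gcongr; exact sum_blk_le hσ hy j
    _ = _ := by
        rw [show 1 - 2 * σ = -σ + (1 - σ) by ring, Real.rpow_add (by positivity)]; ring

lemma norm_bs_le {σ y : ℝ} (hσ : 0 ≤ σ) (hy : 0 < y) (j : ℕ) {q : ℕ}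
    (χ : DirichletCharacter ℂ q) : ‖bs σ y j χ‖ ≤ 3 * ((2 : ℝ) ^ j) ^ (1 - σ) := by
  refine (norm_sum_le _ _).trans ((sum_le_sum fun p _ => ?_).trans (sum_blk_le hσ hy j))
  rw [norm_mul, Complex.norm_real, Real.norm_of_nonneg (wt_nonneg _ _ _)]
  exact mul_le_of_le_one_right (wt_nonneg _ _ _) (χ.norm_le_one _)

lemma two_pow_rpow (j : ℕ) (a : ℝ) : ((2 : ℝ) ^ j) ^ a = ((2 : ℝ) ^ a) ^ j := by
  rw [← Real.rpow_natCast, ← Real.rpow_natCast, ← Real.rpow_mul (by norm_num),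
    ← Real.rpow_mul (by norm_num), mul_comm]

lemma sum_geom_le {a : ℝ} (ha : 0 < a) (s : Finset ℕ) :
    ∑ j ∈ s, ((2 : ℝ) ^ j) ^ (-a) ≤ (1 - (2 : ℝ) ^ (-a))⁻¹ := by
  have h0 : 0 ≤ (2 : ℝ) ^ (-a) := by positivity
  have h1 : (2 : ℝ) ^ (-a) < 1 := Real.rpow_lt_one_of_one_lt_of_neg (by norm_num) (by linarith)
  simp only [two_pow_rpow]
  rw [← tsum_geometric_of_lt_one h0 h1]
  exact (summable_geometric_of_lt_one h0 h1).sum_le_tsum _ fun _ _ => by positivity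

lemma exists_split {σ : ℝ} (hσ : 1 / 2 < σ) : ∃ C : ℝ, 0 ≤ C ∧ ∀ y : ℝ, 0 < y → ∀ (J q : ℕ)
    (χ : DirichletCharacter ℂ q),
    ‖∑ n ∈ range (2 ^ J), ((wt σ y n : ℝ) : ℂ) * χ (n : ZMod q)‖
      ≤ C + ∑ j ∈ range J, ‖bs σ y j χ‖ := by
  obtain ⟨c, hc⟩ := Chebyshev.psi_sub_theta_le_mul_sqrt
  have h1 : (2 : ℝ) ^ (-(σ - 1 / 2)) < 1 :=
    Real.rpow_lt_one_of_one_lt_of_neg (by norm_num) (by linarith)
  have hc0 : 0 ≤ 2 * |c| := by positivity
  refine ⟨2 * |c| * (1 - (2 : ℝ) ^ (-(σ - 1 / 2)))⁻¹,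
    mul_nonneg hc0 (inv_nonneg.2 (by linarith)), fun y hy J q χ => ?_⟩
  have key : ‖∑ n ∈ range (2 ^ J), ((wt σ y n : ℝ) : ℂ) * χ (n : ZMod q)‖
      ≤ ∑ j ∈ range J, (2 * |c| * ((2 : ℝ) ^ j) ^ (-(σ - 1 / 2)) + ‖bs σ y j χ‖) := by
    induction J with
    | zero => simp [wt]
    | succ J ih =>
      rw [← sum_range_add_sum_Ico _ (show 2 ^ J ≤ 2 ^ (J + 1) from Nat.pow_le_pow_right two_pos (Nat.le_succ J)),
        sum_range_succ, ← sum_filter_add_sum_filter_not (Ico (2 ^ J) (2 ^ (J + 1))) Nat.Prime]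
      refine (norm_add_le _ _).trans (add_le_add ih ((norm_add_le _ _).trans ?_))
      rw [add_comm]
      refine add_le_add ?_ le_rfl
      have h2 := hc ((2 ^ (J + 1) : ℕ) : ℝ)
      rw [Chebyshev.psi_sub_theta_eq_sum_not_prime, Nat.floor_natCast] at h2
      have h3 : √((2 ^ (J + 1) : ℕ) : ℝ) ≤ 2 * ((2 : ℝ) ^ J) ^ (1 / 2 : ℝ) := by
        clear * - J
        rw [← Real.sqrt_eq_rpow, Real.sqrt_le_left (by positivity), mul_pow,
          Real.sq_sqrt (by positivity)]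
        push_cast
        have : (0 : ℝ) < 2 ^ J := by positivity
        rw [pow_succ]; linarith
      calc _ ≤ ∑ n ∈ Ico (2 ^ J) (2 ^ (J + 1)) with ¬ n.Prime, vonMangoldt n * ((2 : ℝ) ^ J) ^ (-σ) := by
            clear * - J σ y q χ hσ hy
            refine (norm_sum_le _ _).trans (sum_le_sum fun n hn => ?_)
            rw [norm_mul, Complex.norm_real, Real.norm_of_nonneg (wt_nonneg _ _ _)]
            exact (mul_le_of_le_one_right (wt_nonneg _ _ _) (χ.norm_le_one _)).trans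
              (wt_le (by linarith) hy (mem_Ico.1 (mem_filter.1 hn).1).1)
        _ ≤ |c| * (2 * ((2 : ℝ) ^ J) ^ (1 / 2 : ℝ)) * ((2 : ℝ) ^ J) ^ (-σ) := by
            rw [← sum_mul]
            gcongr
            refine le_trans ?_ (h2.trans ?_)
            · refine sum_le_sum_of_subset_of_nonneg (fun p hp => ?_) fun p _ _ => vonMangoldt_nonneg
              obtain ⟨h1, h2⟩ := mem_filter.1 hp
              exact mem_filter.2 ⟨mem_Ioc.2 ⟨lt_of_lt_of_le (by positivity) (mem_Ico.1 h1).1,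
                (mem_Ico.1 h1).2.le⟩, h2⟩
            · exact mul_le_mul (le_abs_self c) h3 (Real.sqrt_nonneg _) (abs_nonneg c)
        _ = _ := by
            rw [show -(σ - 1 / 2) = 1 / 2 + -σ by ring, Real.rpow_add (by positivity)]; ring
  refine key.trans ?_
  rw [sum_add_distrib, ← mul_sum]
  gcongr
  exact sum_geom_le (by clear * - σ hσ; linarith) _

end Pool.Agent.Work.MP_814e7e_nt
end
end

-- merged part: Pool.Agent.Work.MP_814e7e_nt.Moment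
section
/-!
High moments of a sum over primes, averaged over all characters to all moduli up to `Q`. There is no condition on
the size of `Y ^ k`: the off diagonal terms are counted by the divisors of a difference.

PLAN. (sum_p a p χ p)^k = sum over f in Fintype.piFinset (fun _ : Fin k => I) of (prod a (f i)) χ (prod f i)
(Finset.sum_pow' or prod_univ_sum, map_prod). ‖z‖^(2k) = re (z^k * conj (z^k)). Drop primitivity (nonnegative terms), expand,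
sum_char_mul_conj (Lib/LargeSieve/Mult): the sum over all χ mod q of χ m conj (χ n) has norm ≤ Q if (m : ZMod q) = n, else 0.
For m = n the sum over q ≤ Q is ≤ Q^2; for m ≠ n the condition means q ∣ |m - n| with 0 < |m - n| ≤ Y^k, so ≤ Q D.
Diagonal (lemma diag_le): prod f = prod g forces equal multisets of primes (Nat.primeFactorsList_unique or
perm_of_prod_eq_prod for List.ofFn), hence g = f ∘ π for a permutation π (List.Perm / Tuple.sort lemmas, or induction on k: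
g 0 divides prod f) and prod ‖a (g i)‖ = prod ‖a (f i)‖; at most k! ≤ k^k such g (it is enough that g takes values in the
image of f: at most k^k functions).
-/

set_option autoImplicit false

noncomputable section

open Finset

namespace Pool.Agent.Work.MP_814e7e_nt

open Pool.Agent.Lib.LargeSieve

lemma Moment_card (I : Finset ℕ) (hI : ∀ p ∈ I, p.Prime) (k : ℕ) {f : Fin k → ℕ}
    (hf : f ∈ Fintype.piFinset (fun _ : Fin k => I)) (c : ℝ) (hc : 0 ≤ c) :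
    ∑ g ∈ Fintype.piFinset (fun _ : Fin k => I), (if ∏ i, f i = ∏ i, g i then c else 0)
      ≤ (k : ℝ) ^ k * c := by
  rw [← sum_filter, sum_const, nsmul_eq_mul]
  refine mul_le_mul_of_nonneg_right ?_ hc
  have h1 : (Fintype.piFinset (fun _ : Fin k => I)).filter (fun g => ∏ i, f i = ∏ i, g i) ⊆
      Fintype.piFinset (fun _ : Fin k => univ.image f) := by
    intro g hg
    obtain ⟨hg1, hg2⟩ := mem_filter.1 hg
    refine Fintype.mem_piFinset.2 fun i => ?_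
    have hp := hI _ (Fintype.mem_piFinset.1 hg1 i)
    have h2 : g i ∣ ∏ j, f j := hg2 ▸ dvd_prod_of_mem g (mem_univ i)
    obtain ⟨j, -, hj⟩ := (hp.prime.dvd_finsetProd_iff _).1 h2
    exact mem_image.2 ⟨j, mem_univ j,
      ((Nat.prime_dvd_prime_iff_eq hp (hI _ (Fintype.mem_piFinset.1 hf j))).1 hj).symm⟩
  have h2 := card_le_card h1
  rw [Fintype.card_piFinset_const] at h2
  have h3 : (univ.image f).card ≤ k := card_image_le.trans (by simp)
  exact_mod_cast h2.trans (Nat.pow_le_pow_left h3 k)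

lemma diag_le (I : Finset ℕ) (hI : ∀ p ∈ I, p.Prime) (a : ℕ → ℝ) (ha : ∀ p, 0 ≤ a p) (k : ℕ) :
    ∑ f ∈ Fintype.piFinset (fun _ : Fin k => I), ∑ g ∈ Fintype.piFinset (fun _ : Fin k => I),
        (if ∏ i, f i = ∏ i, g i then (∏ i, a (f i)) * ∏ i, a (g i) else 0)
      ≤ ((k : ℝ) * ∑ p ∈ I, a p ^ 2) ^ k := by
  have h1 : ∑ f ∈ Fintype.piFinset (fun _ : Fin k => I), ∑ g ∈ Fintype.piFinset (fun _ : Fin k => I),
      (if ∏ i, f i = ∏ i, g i then (∏ i, a (f i)) ^ 2 else 0) ≤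
      ((k : ℝ) * ∑ p ∈ I, a p ^ 2) ^ k := by
    rw [mul_pow, sum_pow', mul_sum]
    refine sum_le_sum fun f hf => (Moment_card I hI k hf _ (sq_nonneg _)).trans (le_of_eq ?_)
    rw [prod_pow]
  have h2 : ∑ f ∈ Fintype.piFinset (fun _ : Fin k => I), ∑ g ∈ Fintype.piFinset (fun _ : Fin k => I),
      (if ∏ i, f i = ∏ i, g i then (∏ i, a (g i)) ^ 2 else 0) ≤
      ((k : ℝ) * ∑ p ∈ I, a p ^ 2) ^ k := by
    rw [sum_comm]
    simpa only [eq_comm] using h1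
  refine le_trans ?_ ((div_le_div_of_nonneg_right (add_le_add h1 h2) zero_le_two).trans
    (add_self_div_two _).le)
  rw [← sum_add_distrib, sum_div]
  refine sum_le_sum fun f _ => ?_
  rw [← sum_add_distrib, sum_div]
  refine sum_le_sum fun g _ => ?_
  split_ifs
  · clear * - k a f g
    nlinarith [sq_nonneg ((∏ i, a (f i)) - ∏ i, a (g i))]
  · simp

lemma Moment_one {ι : Type} (S : Finset ι) (c : ι → ℂ) (m : ι → ℕ) {q Q : ℕ} (h1 : 1 ≤ q)
    (h2 : q ≤ Q) :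
    ∑ χ : DirichletCharacter ℂ q, ‖∑ f ∈ S, c f * χ (m f : ZMod q)‖ ^ 2 ≤
      ∑ f ∈ S, ∑ g ∈ S, ‖c f‖ * ‖c g‖ * if (m f : ZMod q) = m g then (Q : ℝ) else 0 := by
  have : NeZero q := ⟨by omega⟩
  have e : ((∑ χ : DirichletCharacter ℂ q, ‖∑ f ∈ S, c f * χ (m f : ZMod q)‖ ^ 2 : ℝ) : ℂ) =
      ∑ f ∈ S, ∑ g ∈ S, c f * (starRingEnd ℂ) (c g) *
        ∑ χ : DirichletCharacter ℂ q, χ (m f : ZMod q) * (starRingEnd ℂ) (χ (m g : ZMod q)) := by
    push_cast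
    simp only [← Complex.mul_conj', map_sum, map_mul, sum_mul_sum]
    simp only [mul_sum]
    rw [sum_comm]
    refine sum_congr rfl fun f _ => ?_
    rw [sum_comm]
    exact sum_congr rfl fun g _ => sum_congr rfl fun χ _ => by ring
  refine (le_abs_self _).trans ?_
  rw [← Real.norm_eq_abs, ← Complex.norm_real, e]
  refine (norm_sum_le _ _).trans (sum_le_sum fun f _ => (norm_sum_le _ _).trans
    (sum_le_sum fun g _ => ?_))
  rw [norm_mul, norm_mul, Complex.norm_conj, sum_char_mul_conj]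
  refine mul_le_mul_of_nonneg_left ?_ (by positivity)
  have h3 : (q.totient : ℝ) ≤ Q := by exact_mod_cast (Nat.totient_le q).trans h2
  split_ifs
  · simpa using h3
  · simp
  · simp

lemma Moment_count {Q N m n : ℕ} {D : ℝ} (hD0 : 0 ≤ D)
    (hD : ∀ m : ℕ, 0 < m → m ≤ N → (((Icc 1 Q).filter (· ∣ m)).card : ℝ) ≤ D)
    (hm : m ≤ N) (hn : n ≤ N) :
    ∑ q ∈ Icc 1 Q, (if (m : ZMod q) = n then (Q : ℝ) else 0) ≤
      (if m = n then (Q : ℝ) ^ 2 else 0) + Q * D := by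
  have hQ : (0 : ℝ) ≤ Q := Nat.cast_nonneg _
  wlog h : m ≤ n generalizing m n
  · have := this hn hm (not_le.1 h).le
    simpa only [eq_comm] using this
  rw [← sum_filter, sum_const, nsmul_eq_mul]
  split_ifs with hmn
  · have h1 : (((Icc 1 Q).filter fun q => (m : ZMod q) = n).card : ℝ) ≤ Q := by
      clear * - m n Q
      exact_mod_cast (card_filter_le _ _).trans (by simp)
    nlinarith [mul_nonneg hQ hD0]
  · have h1 : ((Icc 1 Q).filter fun q => (m : ZMod q) = n) = (Icc 1 Q).filter (· ∣ n - m) :=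
      filter_congr fun q _ => by rw [ZMod.natCast_eq_natCast_iff, Nat.modEq_iff_dvd' h]
    rw [h1, zero_add, mul_comm]
    exact mul_le_mul_of_nonneg_left (hD _ (by omega) (by omega)) hQ

lemma moment_le (Q Y k : ℕ) (I : Finset ℕ) (hI : ∀ p ∈ I, p.Prime ∧ p ≤ Y) (a : ℕ → ℂ) {D : ℝ}
    (hD0 : 0 ≤ D)
    (hD : ∀ m : ℕ, 0 < m → m ≤ Y ^ k → (((Icc 1 Q).filter (· ∣ m)).card : ℝ) ≤ D) :
    psumQ Q (fun q χ => ‖∑ p ∈ I, a p * χ (p : ZMod q)‖ ^ (2 * k)) ≤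
      (Q : ℝ) ^ 2 * ((k : ℝ) * ∑ p ∈ I, ‖a p‖ ^ 2) ^ k + Q * D * (∑ p ∈ I, ‖a p‖) ^ (2 * k) := by
  classical
  have hd := diag_le I (fun p hp => (hI p hp).1) (fun p => ‖a p‖) (fun p => norm_nonneg _) k
  have hY : ∀ f ∈ Fintype.piFinset (fun _ : Fin k => I), ∏ i, f i ≤ Y ^ k := fun f hf => by
    clear * - k f Y hI I hf
    simpa using prod_le_pow_card univ f Y fun i _ => (hI _ (Fintype.mem_piFinset.1 hf i)).2
  have hs : (∑ p ∈ I, ‖a p‖) ^ (2 * k) = ∑ f ∈ Fintype.piFinset (fun _ : Fin k => I),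
      ∑ g ∈ Fintype.piFinset (fun _ : Fin k => I), (∏ i, ‖a (f i)‖) * ∏ i, ‖a (g i)‖ := by
    rw [two_mul, pow_add, sum_pow', sum_mul_sum]
  generalize hS : Fintype.piFinset (fun _ : Fin k => I) = S at hd hY hs
  calc psumQ Q (fun q χ => ‖∑ p ∈ I, a p * χ (p : ZMod q)‖ ^ (2 * k))
      ≤ ∑ q ∈ Icc 1 Q, ∑ f ∈ S, ∑ g ∈ S, ‖∏ i, a (f i)‖ * ‖∏ i, a (g i)‖ *
          if ((∏ i, f i : ℕ) : ZMod q) = (∏ i, g i : ℕ) then (Q : ℝ) else 0 := by
        refine sum_le_sum fun q hq => le_trans ?_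
          (Moment_one S (fun f => ∏ i, a (f i)) (fun f => ∏ i, f i) (mem_Icc.1 hq).1
            (mem_Icc.1 hq).2)
        refine (sum_le_sum_of_subset_of_nonneg (filter_subset _ _) fun χ _ _ => by
          positivity).trans (le_of_eq (sum_congr rfl fun χ _ => ?_))
        dsimp only
        rw [mul_comm 2 k, pow_mul, ← norm_pow, sum_pow', hS]
        simp only [prod_mul_distrib, Nat.cast_prod, map_prod]
    _ = ∑ f ∈ S, ∑ g ∈ S, (∏ i, ‖a (f i)‖) * (∏ i, ‖a (g i)‖) * ∑ q ∈ Icc 1 Q,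
          if ((∏ i, f i : ℕ) : ZMod q) = (∏ i, g i : ℕ) then (Q : ℝ) else 0 := by
        rw [sum_comm]
        refine sum_congr rfl fun f _ => ?_
        rw [sum_comm]
        refine sum_congr rfl fun g _ => ?_
        rw [mul_sum, norm_prod, norm_prod]
    _ ≤ ∑ f ∈ S, ∑ g ∈ S, (∏ i, ‖a (f i)‖) * (∏ i, ‖a (g i)‖) *
          ((if ∏ i, f i = ∏ i, g i then (Q : ℝ) ^ 2 else 0) + Q * D) :=
        sum_le_sum fun f hf => sum_le_sum fun g hg => mul_le_mul_of_nonneg_left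
          (Moment_count hD0 hD (hY f hf) (hY g hg)) (by positivity)
    _ = (Q : ℝ) ^ 2 * (∑ f ∈ S, ∑ g ∈ S, if ∏ i, f i = ∏ i, g i then
          (∏ i, ‖a (f i)‖) * ∏ i, ‖a (g i)‖ else 0) + Q * D * (∑ p ∈ I, ‖a p‖) ^ (2 * k) := by
        rw [hs, mul_sum, mul_sum, ← sum_add_distrib]
        refine sum_congr rfl fun f _ => ?_
        rw [mul_sum, mul_sum, ← sum_add_distrib]
        refine sum_congr rfl fun g _ => ?_
        split_ifs <;> ring
    _ ≤ _ := by gcongr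

end Pool.Agent.Work.MP_814e7e_nt
end
end

-- merged part: Pool.Agent.Work.MP_814e7e_nt.Count
section
/-!
Large values of one dyadic block and of the whole short sum.
-/

set_option autoImplicit false

noncomputable section

open Finset ArithmeticFunction

namespace Pool.Agent.Work.MP_814e7e_nt

lemma ratio_one {σ η c z W t : ℝ} (hz : 0 < z) (hW : 0 < W) (hc : 0 < c)
    (ht : t ≤ z * (c ^ 2 * W ^ η)) :
    (3 * c * z ^ (1 - σ) * W ^ (-η))⁻¹ ^ 2 * (3 * t * (z * W) ^ (1 - 2 * σ))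
      ≤ Real.exp (-1) * W ^ (-(2 * σ - 1 - 3 * η)) := by
  have e1 : z ^ (1 - σ) * z ^ (1 - σ) = z * z ^ (1 - 2 * σ) := by
    rw [← Real.rpow_add hz, show 1 - σ + (1 - σ) = 1 + (1 - 2 * σ) by ring, Real.rpow_add hz,
      Real.rpow_one]
  have e2 : W ^ (-(2 * σ - 1 - 3 * η)) * (W ^ (-η) * W ^ (-η)) = W ^ η * W ^ (1 - 2 * σ) := by
    rw [← Real.rpow_add hW, ← Real.rpow_add hW, ← Real.rpow_add hW]; congr 1; ring
  have e3 : (1 : ℝ) / 3 ≤ Real.exp (-1) := by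
    rw [Real.exp_neg, one_div]
    exact inv_anti₀ (Real.exp_pos 1) (by have := Real.exp_one_lt_d9; linarith)
  have hU : 0 < 3 * c * z ^ (1 - σ) * W ^ (-η) := by positivity
  rw [inv_pow, inv_mul_le_iff₀ (by positivity), Real.mul_rpow hz.le hW.le]
  calc _ ≤ 3 * (z * (c ^ 2 * W ^ η)) * (z ^ (1 - 2 * σ) * W ^ (1 - 2 * σ)) := by gcongr
    _ = 9 * c ^ 2 * (z * z ^ (1 - 2 * σ)) * (1 / 3) * (W ^ η * W ^ (1 - 2 * σ)) := by ring
    _ ≤ 9 * c ^ 2 * (z * z ^ (1 - 2 * σ)) * Real.exp (-1) * (W ^ η * W ^ (1 - 2 * σ)) := by gcongr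
    _ = _ := by rw [← e1, ← e2]; ring

lemma ratio_two {σ η c z W : ℝ} (hz : 0 < z) (hW : 0 < W) (hc : 1 ≤ c) :
    (3 * c * z ^ (1 - σ) * W ^ (-η))⁻¹ * (3 * (z * W) ^ (1 - σ)) ≤ W ^ (1 - σ + η) := by
  have e2 : W ^ (-η) * W ^ (1 - σ + η) = W ^ (1 - σ) := by
    rw [← Real.rpow_add hW]; congr 1; ring
  rw [inv_mul_le_iff₀ (by positivity), Real.mul_rpow hz.le hW.le]
  calc _ = 1 * (3 * z ^ (1 - σ) * W ^ (1 - σ)) := by ring
    _ ≤ c * (3 * z ^ (1 - σ) * W ^ (1 - σ)) := by gcongr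
    _ = _ := by rw [← e2]; ring

lemma block_cnt {σ η c y : ℝ} (h0 : 1 / 2 < σ) (h1 : σ < 1) (hη : 0 < η)
    (hη1 : 8 * η ≤ 2 * σ - 1) (hy : 0 < y) (hc1 : 1 ≤ c)
    (hc : ∀ i : ℕ, ((i : ℝ) + 2) ^ 2 ≤ c ^ 2 * ((2 : ℝ) ^ i) ^ η) {Q J j i : ℕ} (hQ : 1 ≤ Q)
    (hj : 1 ≤ j) (hi : 1 ≤ i) (hJ : j + i + 1 ≤ J)
    (hD : ∀ m : ℕ, 0 < m → Real.log m ≤ J * Real.log Q →
      (((Icc 1 Q).filter (· ∣ m)).card : ℝ) ≤ (Q : ℝ) ^ η) :
    cnt Q (fun _ χ => 3 * c * ((2 : ℝ) ^ j) ^ (1 - σ) * ((2 : ℝ) ^ i) ^ (-η) < ‖bs σ y (j + i) χ‖)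
      ≤ (Q : ℝ) ^ 2 * Real.exp (-((2 : ℝ) ^ j / j) - i)
        + ((2 : ℝ) ^ J + 1) * (Q : ℝ) ^ (3 - 2 * σ + 3 * η) := by
  set z : ℝ := 2 ^ j with hz
  set W : ℝ := 2 ^ i with hW
  set U : ℝ := 3 * c * z ^ (1 - σ) * W ^ (-η) with hU
  set k : ℕ := min (⌈z / j⌉₊ + i) (Nat.log (2 ^ i) Q) with hk
  have hz0 : 0 < z := by positivity
  have hW0 : 0 < W := by positivity
  have hW1 : 1 ≤ W := one_le_pow₀ (by norm_num)
  have hU0 : 0 < U := by positivity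
  have hQ0 : (0 : ℝ) < Q := by exact_mod_cast hQ
  have hQ1 : (1 : ℝ) ≤ Q := by exact_mod_cast hQ
  have hj0 : (0 : ℝ) < j := by exact_mod_cast hj
  have hj1 : (1 : ℝ) ≤ j := by exact_mod_cast hj
  have hi0 : (0 : ℝ) ≤ i := Nat.cast_nonneg i
  have h2i : 1 < 2 ^ i := Nat.one_lt_two_pow (by omega)
  have hWk : W ^ k ≤ Q := by
    have h := Nat.pow_log_le_self (2 ^ i) (show Q ≠ 0 by omega)
    have h' : (2 ^ i) ^ k ≤ Q := (Nat.pow_le_pow_right h2i.le (min_le_right _ _)).trans h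
    rw [hW]; exact_mod_cast h'
  have hm := moment_le Q (2 ^ J) k (blk (j + i)) (fun p hp => ⟨(mem_filter.1 hp).2,
      (mem_Ico.1 (mem_filter.1 hp).1).2.le.trans (Nat.pow_le_pow_right two_pos hJ)⟩)
    (fun p => ((wt σ y p : ℝ) : ℂ)) (D := (Q : ℝ) ^ η) (by positivity) fun m hm0 hm => by
      refine hD m hm0 ?_
      have h2 : (2 : ℝ) ^ k ≤ Q := le_trans (by
        have : (2 : ℝ) ≤ W := by rw [hW]; exact_mod_cast h2i
        gcongr) hWk
      have h3 : (m : ℝ) ≤ Q ^ J := by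
        calc (m : ℝ) ≤ ((2 : ℝ) ^ J) ^ k := by exact_mod_cast hm
          _ = ((2 : ℝ) ^ k) ^ J := by rw [← pow_mul, ← pow_mul, mul_comm]
          _ ≤ _ := by gcongr
      rw [← Real.log_pow]
      exact Real.log_le_log (by exact_mod_cast hm0) h3
  simp only [Complex.norm_real, Real.norm_of_nonneg (wt_nonneg _ _ _)] at hm
  have hM : cnt Q (fun _ χ => U < ‖bs σ y (j + i) χ‖)
      ≤ psumQ Q fun _ χ => U⁻¹ ^ (2 * k) * ‖bs σ y (j + i) χ‖ ^ (2 * k) := by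
    refine cnt_le_psumQ (fun _ _ => by positivity) fun q _ _ χ _ h => ?_
    rw [← mul_pow]
    exact one_le_pow₀ ((one_le_inv_mul₀ hU0).2 h.le)
  rw [psumQ_mul] at hM
  have hzW : (2 : ℝ) ^ (j + i) = z * W := pow_add _ _ _
  have hs1 := sum_blk_le (σ := σ) (by linarith) hy (j + i)
  have hs2 := sum_blk_sq_le (σ := σ) (by linarith) hy (j + i)
  rw [hzW] at hs1 hs2
  have hzj : 1 ≤ z / j := by
    rw [le_div_iff₀ hj0, one_mul, hz]
    exact_mod_cast Nat.lt_two_pow_self.le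
  have ht : (k : ℝ) * (((j + i : ℕ) : ℝ) + 1) ≤ z * (c ^ 2 * W ^ η) := by
    clear * - k z j i Q σ η h1 hη hη1 hzj hj1 c W hj hi hz0 hc
    have a1 : (k : ℝ) ≤ z / j * (i + 2) := by
      have b1 : (k : ℝ) ≤ ((⌈z / j⌉₊ + i : ℕ) : ℝ) := by exact_mod_cast min_le_left _ _
      have b2 := (Nat.ceil_lt_add_one (show 0 ≤ z / j by linarith)).le
      push_cast at b1
      nlinarith
    have a2 : ((j + i : ℕ) : ℝ) + 1 ≤ j * (i + 2) := by push_cast; nlinarith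
    calc _ ≤ z / j * (i + 2) * (j * (i + 2)) := by gcongr
      _ = z * ((i : ℝ) + 2) ^ 2 := by field_simp
      _ ≤ _ := by gcongr; exact hc i
  have hδ0 : 0 < 2 * σ - 1 - 3 * η := by clear * - σ η hη hη1; linarith
  have t1 : U⁻¹ ^ (2 * k) * ((k : ℝ) * ∑ p ∈ blk (j + i), wt σ y p ^ 2) ^ k
      ≤ (Real.exp (-1) * W ^ (-(2 * σ - 1 - 3 * η))) ^ k := by
    clear * - U k j i σ y W η c z hc1 hU hs2 hz0 hW0 h1 hη hη1 ht
    rw [pow_mul, ← mul_pow]
    refine pow_le_pow_left₀ (mul_nonneg (by positivity) (mul_nonneg (Nat.cast_nonneg k)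
      (sum_nonneg fun _ _ => sq_nonneg _))) (le_trans ?_ (ratio_one (σ := σ) hz0 hW0 (by linarith) ht)) k
    rw [← hU]
    refine mul_le_mul_of_nonneg_left ?_ (by positivity)
    calc _ ≤ (k : ℝ) * (3 * (((j + i : ℕ) : ℝ) + 1) * (z * W) ^ (1 - 2 * σ)) := by gcongr
      _ = _ := by ring
  have t2 : U⁻¹ ^ (2 * k) * (∑ p ∈ blk (j + i), wt σ y p) ^ (2 * k)
      ≤ (Q : ℝ) ^ (2 * (1 - σ + η)) := by
    clear * - U k j i σ y Q η W c z hc1 hU hs1 hz0 hW0 hWk h1 hη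
    rw [← mul_pow]
    calc _ ≤ (W ^ (1 - σ + η)) ^ (2 * k) := by
          refine pow_le_pow_left₀ (mul_nonneg (by positivity) (sum_nonneg fun _ _ => wt_nonneg _ _ _))
            (le_trans ?_ (ratio_two (σ := σ) (η := η) hz0 hW0 hc1)) _
          rw [← hU]
          gcongr
      _ = (W ^ k) ^ (2 * (1 - σ + η)) := by
          rw [← Real.rpow_natCast, ← Real.rpow_natCast, ← Real.rpow_mul hW0.le,
            ← Real.rpow_mul hW0.le]
          congr 1; push_cast; ring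
      _ ≤ _ := Real.rpow_le_rpow (by positivity) hWk (by linarith)
  have hWδ : W ^ (-(2 * σ - 1 - 3 * η)) ≤ 1 :=
    Real.rpow_le_one_of_one_le_of_nonpos hW1 (by clear * - σ η hη hη1 hW1; linarith)
  have t3 : (Q : ℝ) ^ 2 * (Real.exp (-1) * W ^ (-(2 * σ - 1 - 3 * η))) ^ k
      ≤ (Q : ℝ) ^ 2 * Real.exp (-(z / j) - i) + (2 : ℝ) ^ J * (Q : ℝ) ^ (3 - 2 * σ + 3 * η) := by
    clear * - z j i Q W σ η k J hWδ hk hQ h2i hW0 hW hj hJ hW1 h1 hη hη1 hQ0
    rcases min_choice (⌈z / j⌉₊ + i) (Nat.log (2 ^ i) Q) with h | h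
    · rw [← hk] at h
      refine le_add_of_le_of_nonneg ?_ (by positivity)
      gcongr
      calc _ ≤ (Real.exp (-1) * 1) ^ k := by gcongr
        _ = Real.exp (k * (-1)) := by rw [mul_one, Real.exp_nat_mul]
        _ ≤ _ := by
          refine Real.exp_le_exp.2 ?_
          have := Nat.le_ceil (z / j)
          rw [h]; push_cast; linarith
    · rw [← hk] at h
      refine le_add_of_nonneg_of_le (by positivity) ?_
      have b1 : (Q : ℝ) / W ≤ W ^ k := by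
        have := (Nat.lt_pow_succ_log_self h2i Q).le
        rw [← h] at this
        rw [div_le_iff₀ hW0, ← pow_succ, hW]
        exact_mod_cast this
      have b2 : W ≤ 2 ^ J := pow_le_pow_right₀ (by norm_num) (by omega)
      have b3 : W ^ (2 * σ - 1 - 3 * η) ≤ 2 ^ J :=
        (Real.rpow_le_self_of_one_le hW1 (by linarith)).trans b2
      have b4 : Real.exp (-1) ≤ 1 := Real.exp_le_one_iff.2 (by norm_num)
      calc _ ≤ (Q : ℝ) ^ 2 * (1 * W ^ (-(2 * σ - 1 - 3 * η))) ^ k := by gcongr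
        _ = (Q : ℝ) ^ 2 * (W ^ k) ^ (-(2 * σ - 1 - 3 * η)) := by
          rw [one_mul, ← Real.rpow_natCast _ k, ← Real.rpow_natCast _ k, ← Real.rpow_mul hW0.le,
            ← Real.rpow_mul hW0.le, mul_comm (k : ℝ)]
        _ ≤ (Q : ℝ) ^ 2 * ((Q : ℝ) / W) ^ (-(2 * σ - 1 - 3 * η)) :=
          mul_le_mul_of_nonneg_left
            (Real.rpow_le_rpow_of_nonpos (by positivity) b1 (by linarith)) (by positivity)
        _ = W ^ (2 * σ - 1 - 3 * η) * (Q : ℝ) ^ (3 - 2 * σ + 3 * η) := by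
          rw [Real.div_rpow hQ0.le hW0.le, Real.rpow_neg hW0.le, div_inv_eq_mul,
            show 3 - 2 * σ + 3 * η = 2 + -(2 * σ - 1 - 3 * η) by ring, Real.rpow_add hQ0,
            Real.rpow_two]
          ring
        _ ≤ _ := by gcongr
  have t4 : (Q : ℝ) * (Q : ℝ) ^ η * (Q : ℝ) ^ (2 * (1 - σ + η)) = (Q : ℝ) ^ (3 - 2 * σ + 3 * η) := by
    rw [show 3 - 2 * σ + 3 * η = 1 + η + 2 * (1 - σ + η) by ring, Real.rpow_add hQ0,
      Real.rpow_add hQ0, Real.rpow_one]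
  calc _ ≤ _ := hM
    _ ≤ U⁻¹ ^ (2 * k) * _ := mul_le_mul_of_nonneg_left hm (by positivity)
    _ = (Q : ℝ) ^ 2 * (U⁻¹ ^ (2 * k) * ((k : ℝ) * ∑ p ∈ blk (j + i), wt σ y p ^ 2) ^ k)
        + Q * (Q : ℝ) ^ η * (U⁻¹ ^ (2 * k) * (∑ p ∈ blk (j + i), wt σ y p) ^ (2 * k)) := by ring
    _ ≤ (Q : ℝ) ^ 2 * (Real.exp (-1) * W ^ (-(2 * σ - 1 - 3 * η))) ^ k
        + Q * (Q : ℝ) ^ η * (Q : ℝ) ^ (2 * (1 - σ + η)) := by clear * - Q U k j i σ y W η t1 hQ t2; gcongr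
    _ ≤ _ := by clear * - Q W σ η k z j i J t4 t3; rw [t4]; linarith

lemma exists_const {η : ℝ} (hη : 0 < η) :
    ∃ c : ℝ, 1 ≤ c ∧ ∀ i : ℕ, ((i : ℝ) + 2) ^ 2 ≤ c ^ 2 * ((2 : ℝ) ^ i) ^ η := by
  have hl : 0 < Real.log 2 := Real.log_pos (by norm_num)
  set a : ℝ := Real.log 2 * η / 2 with ha
  have ha0 : 0 < a := by positivity
  have hb : 0 < 1 / a := by positivity
  refine ⟨2 + 1 / a, by linarith, fun i => ?_⟩
  have e : ((2 : ℝ) ^ i) ^ η = Real.exp (i * a) ^ 2 := by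
    rw [Real.rpow_def_of_pos (by positivity), Real.log_pow, ← Real.exp_nat_mul]
    congr 1; rw [ha]; push_cast; ring
  rw [e, ← mul_pow]
  have hi : (0 : ℝ) ≤ i := Nat.cast_nonneg i
  refine pow_le_pow_left₀ (by positivity) ?_ 2
  have h1 := Real.add_one_le_exp (i * a)
  have h2 : (2 + 1 / a) * (i * a + 1) = 2 * (i * a) + 2 + i + 1 / a := by field_simp; ring
  have h3 : 0 ≤ i * a := by positivity
  calc (i : ℝ) + 2 ≤ (2 + 1 / a) * (i * a + 1) := by rw [h2]; linarith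
    _ ≤ _ := by gcongr

lemma exists_short {σ η : ℝ} (h0 : 1 / 2 < σ) (h1 : σ < 1) (hη : 0 < η)
    (hη1 : 8 * η ≤ 2 * σ - 1) : ∃ C : ℝ, 1 ≤ C ∧ ∀ y : ℝ, 0 < y → ∀ Q J j : ℕ, 1 ≤ Q → 1 ≤ j →
      (∀ m : ℕ, 0 < m → Real.log m ≤ J * Real.log Q →
        (((Icc 1 Q).filter (· ∣ m)).card : ℝ) ≤ (Q : ℝ) ^ η) →
      cnt Q (fun q χ => C * ((2 : ℝ) ^ j) ^ (1 - σ) <
          1 + ‖∑ n ∈ range (2 ^ J), ((wt σ y n : ℝ) : ℂ) * χ (n : ZMod q)‖)
        ≤ (Q : ℝ) ^ 2 * Real.exp (-((2 : ℝ) ^ j / j))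
          + J * (((2 : ℝ) ^ J + 1) * (Q : ℝ) ^ (3 - 2 * σ + 3 * η)) := by
  obtain ⟨c, hc1, hc⟩ := exists_const hη
  obtain ⟨C, hC0, hC⟩ := exists_split h0
  set A : ℝ := (1 - (2 : ℝ) ^ (-(1 - σ)))⁻¹ with hA
  set B : ℝ := (1 - (2 : ℝ) ^ (-η))⁻¹ with hB
  have hA0 : 0 ≤ A := (sum_empty.ge).trans (sum_geom_le (a := 1 - σ) (by linarith) ∅)
  have hB0 : 0 ≤ B := (sum_empty.ge).trans (sum_geom_le hη ∅)
  refine ⟨1 + C + 3 * A + 3 * c * B, by
    have : 0 ≤ 3 * c * B := by positivity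
    linarith, fun y hy Q J j hQ hj hD => ?_⟩
  have hz1 : 1 ≤ ((2 : ℝ) ^ j) ^ (1 - σ) := Real.one_le_rpow (one_le_pow₀ (by norm_num)) (by linarith)
  refine le_trans (cnt_mono (P' := fun _ χ => ∃ i ∈ range (J - (j + 1)),
    3 * c * ((2 : ℝ) ^ j) ^ (1 - σ) * ((2 : ℝ) ^ (i + 1)) ^ (-η) < ‖bs σ y (j + (i + 1)) χ‖)
    fun q _ _ χ _ h => ?_) ((cnt_exists Q _ _).trans ?_)
  · by_contra hne
    push Not at hne
    have a1 : ∑ j' ∈ range J, ‖bs σ y j' χ‖ ≤ ∑ j' ∈ range (j + 1 + (J - (j + 1))), ‖bs σ y j' χ‖ :=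
      sum_le_sum_of_subset_of_nonneg (range_subset_range.2 (by omega)) fun _ _ _ => norm_nonneg _
    rw [sum_range_add] at a1
    have a2 : ∑ j' ∈ range (j + 1), ‖bs σ y j' χ‖ ≤ 3 * ((2 : ℝ) ^ j) ^ (1 - σ) * A := by
      clear * - j σ y q χ A η h1 hη hη1 hy Q
      rw [← sum_range_reflect]
      refine le_trans (sum_le_sum fun i hi => ?_) (le_trans (mul_sum (range (j + 1))
        (fun i => ((2 : ℝ) ^ i) ^ (-(1 - σ))) (3 * ((2 : ℝ) ^ j) ^ (1 - σ))).ge ?_)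
      · refine (norm_bs_le (by linarith) hy _ χ).trans_eq ?_
        have e : (2 : ℝ) ^ j = 2 ^ (j + 1 - 1 - i) * 2 ^ i := by
          rw [← pow_add]; congr 1; have := mem_range.1 hi; omega
        rw [e, Real.mul_rpow (by positivity) (by positivity), Real.rpow_neg (by positivity)]
        field_simp
      · gcongr
        exact sum_geom_le (by linarith) _
    have a3 : ∑ i ∈ range (J - (j + 1)), ‖bs σ y (j + 1 + i) χ‖
        ≤ 3 * c * ((2 : ℝ) ^ j) ^ (1 - σ) * B := by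
      clear * - J j σ y q χ c η B hne hη hc1
      refine le_trans (sum_le_sum fun i hi => ?_) (le_trans (mul_sum (range (J - (j + 1)))
        (fun i => ((2 : ℝ) ^ i) ^ (-η)) (3 * c * ((2 : ℝ) ^ j) ^ (1 - σ))).ge ?_)
      · rw [show j + 1 + i = j + (i + 1) by ring]
        refine (hne i hi).trans ?_
        refine mul_le_mul_of_nonneg_left ?_ (by positivity)
        exact Real.rpow_le_rpow_of_nonpos (by positivity)
          (pow_le_pow_right₀ (by norm_num) (Nat.le_succ i)) (by linarith)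
      · gcongr
        exact sum_geom_le hη _
    have a4 := hC y hy J q χ
    have a5 : (1 + C) * 1 ≤ (1 + C) * ((2 : ℝ) ^ j) ^ (1 - σ) := by gcongr
    linarith
  · refine (sum_le_sum fun i hi => block_cnt h0 h1 hη hη1 hy hc1 hc hQ hj (Nat.le_add_left 1 i)
      (J := J) (by have := mem_range.1 hi; omega) hD).trans ?_
    rw [sum_add_distrib, ← mul_sum, sum_const, card_range, nsmul_eq_mul]
    refine add_le_add (mul_le_mul_of_nonneg_left ?_ (by positivity)) ?_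
    · have b1 : Real.exp (-1) ≤ 1 / 2 := by
        rw [Real.exp_neg, one_div]
        exact inv_anti₀ (by norm_num) (by have := Real.exp_one_gt_d9; linarith)
      calc _ ≤ ∑ i ∈ range (J - (j + 1)),
            Real.exp (-((2 : ℝ) ^ j / j)) / 2 * (1 / (2 : ℝ)) ^ i := by
            refine sum_le_sum fun i _ => ?_
            rw [sub_eq_add_neg, Real.exp_add, show -((i + 1 : ℕ) : ℝ) = (i + 1 : ℕ) * (-1) by ring,
              Real.exp_nat_mul]
            calc _ ≤ Real.exp (-((2 : ℝ) ^ j / j)) * (1 / 2) ^ (i + 1) := by gcongr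
              _ = _ := by ring
        _ ≤ Real.exp (-((2 : ℝ) ^ j / j)) / 2 * 2 := by
            rw [← mul_sum]; gcongr; exact sum_geometric_two_le _
        _ = _ := by ring
    · gcongr
      exact Nat.sub_le _ _

end Pool.Agent.Work.MP_814e7e_nt
end
end

-- merged part: Pool.Agent.Work.MP_814e7e_nt.Abel
section
/-!
A maximal form of the large sieve: one majorant `Z` for all points `w` of the right half plane.

PLAN. a n = b n * χ n. By sum_abelTerm (Lib/ANT/LBound) the sum is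
sum_{n<Y} abelTerm a n w + psum a Y * (Y+1)^(-w). norm_cpow_sub_le gives
‖abelTerm a n w‖ ≤ ‖psum a (n+1)‖ * ‖w‖ / (n+1) (as in norm_abelTerm_le), and ‖(Y+1)^(-w)‖ ≤ 1.
Take Z q χ = ‖psum a Y‖ + sum_{n<Y} ‖psum a (n+1)‖ / (n+1). Cauchy-Schwarz with weights 1, 1/(n+1)
(total weight ≤ 2 + log Y by sum_range_inv_le): Z^2 ≤ (2 + log Y) (‖psum a Y‖^2 + sum ‖psum a (n+1)‖^2/(n+1)).
For t ≤ Y, psum a t = sum_{n in range (Y+1)} a' n * χ n with a' n = if 1 ≤ n ∧ n ≤ t then b n else 0, so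
largeSieve_mult Q (Y+1) a' (Lib/LargeSieve/Mult) bounds psumQ of ‖psum a t‖^2. Use psumQ_mono, psumQ_add,
psumQ_mul, psumQ_sum.
-/

set_option autoImplicit false

noncomputable section

open Finset

namespace Pool.Agent.Work.MP_814e7e_nt

open Pool.Agent.Lib.LargeSieve Pool.Agent.Lib.ANT

lemma Abel_cs (s : Finset ℕ) (w x : ℕ → ℝ) (x0 : ℝ) (hw : ∀ i, 0 ≤ w i) :
    (x0 + ∑ i ∈ s, w i * x i) ^ 2 ≤ (1 + ∑ i ∈ s, w i) * (x0 ^ 2 + ∑ i ∈ s, w i * x i ^ 2) := by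
  have h1 : (∑ i ∈ s, w i * x i) ^ 2 ≤ (∑ i ∈ s, w i) * ∑ i ∈ s, w i * x i ^ 2 :=
    sum_sq_le_sum_mul_sum_of_sq_le_mul s (fun i _ => hw i)
      (fun i _ => mul_nonneg (hw i) (sq_nonneg _)) fun i _ => le_of_eq (by ring)
  have h2 : 2 * x0 * ∑ i ∈ s, w i * x i ≤ (∑ i ∈ s, w i * x i ^ 2) + (∑ i ∈ s, w i) * x0 ^ 2 := by
    rw [mul_sum, sum_mul, ← sum_add_distrib]
    exact sum_le_sum fun i _ => by nlinarith [mul_nonneg (hw i) (sq_nonneg (x i - x0))]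
  nlinarith

lemma Abel_term (a : ℕ → ℂ) {w : ℂ} (hw : 0 ≤ w.re) (n : ℕ) :
    ‖abelTerm a n w‖ ≤ ‖w‖ * ((((n + 1 : ℕ) : ℝ))⁻¹ * ‖psum a (n + 1)‖) := by
  have h := norm_cpow_sub_le hw (a := ((n + 1 : ℕ) : ℝ)) (u := ((n + 2 : ℕ) : ℝ)) (by positivity)
    (by exact_mod_cast Nat.le_succ _)
  have e : ((n + 2 : ℕ) : ℝ) - ((n + 1 : ℕ) : ℝ) = 1 := by push_cast; ring
  rw [e, mul_one, Complex.ofReal_natCast, Complex.ofReal_natCast, norm_sub_rev] at h
  have h2 : ((n + 1 : ℕ) : ℝ) ^ (-w.re - 1) ≤ (((n + 1 : ℕ) : ℝ))⁻¹ := by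
    rw [← Real.rpow_neg_one]
    exact Real.rpow_le_rpow_of_exponent_le (by exact_mod_cast Nat.succ_pos _) (by linarith)
  rw [abelTerm, norm_mul, ← mul_assoc, mul_comm]
  exact mul_le_mul_of_nonneg_right (h.trans (mul_le_mul_of_nonneg_left h2 (norm_nonneg _)))
    (norm_nonneg _)

lemma Abel_sum (a : ℕ → ℂ) {w : ℂ} (hw : 0 ≤ w.re) (Y : ℕ) :
    ‖∑ n ∈ range Y, a (n + 1) * ((n + 1 : ℕ) : ℂ) ^ (-w)‖ ≤ (1 + ‖w‖) *
      (‖psum a Y‖ + ∑ n ∈ range Y, (((n + 1 : ℕ) : ℝ))⁻¹ * ‖psum a (n + 1)‖) := by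
  have h1 : ‖psum a Y * ((Y + 1 : ℕ) : ℂ) ^ (-w)‖ ≤ ‖psum a Y‖ := by
    rw [norm_mul, Complex.norm_natCast_cpow_of_pos (Nat.succ_pos _), Complex.neg_re]
    exact mul_le_of_le_one_right (norm_nonneg _) (Real.rpow_le_one_of_one_le_of_nonpos
      (by exact_mod_cast Nat.succ_pos _) (by linarith))
  have h2 : ‖∑ n ∈ range Y, abelTerm a n w‖
      ≤ ‖w‖ * ∑ n ∈ range Y, (((n + 1 : ℕ) : ℝ))⁻¹ * ‖psum a (n + 1)‖ := by
    rw [mul_sum]
    exact (norm_sum_le _ _).trans (sum_le_sum fun n _ => Abel_term a hw n)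
  have h3 : 0 ≤ ∑ n ∈ range Y, (((n + 1 : ℕ) : ℝ))⁻¹ * ‖psum a (n + 1)‖ :=
    sum_nonneg fun n _ => by positivity
  rw [← sub_add_cancel (∑ n ∈ range Y, a (n + 1) * ((n + 1 : ℕ) : ℂ) ^ (-w))
    (psum a Y * ((Y + 1 : ℕ) : ℂ) ^ (-w)), ← sum_abelTerm]
  refine (norm_add_le _ _).trans ?_
  nlinarith [norm_nonneg w, norm_nonneg (psum a Y)]

lemma Abel_ls (Q Y : ℕ) (b : ℕ → ℂ) {t : ℕ} (ht : t ≤ Y) :
    psumQ Q (fun q χ => ‖psum (fun n => b n * χ (n : ZMod q)) t‖ ^ 2) ≤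
      (((Y + 1 : ℕ) : ℝ) + ((Q ^ 2 : ℕ) : ℝ) * HH (Q ^ 2)) * ∑ n ∈ range Y, ‖b (n + 1)‖ ^ 2 := by
  have h := largeSieve_mult Q (Y + 1) fun n => if 1 ≤ n ∧ n ≤ t then b n else 0
  have e : ∀ (q : ℕ) (χ : DirichletCharacter ℂ q), psum (fun n => b n * χ (n : ZMod q)) t
      = ∑ n ∈ range (Y + 1), (if 1 ≤ n ∧ n ≤ t then b n else 0) * χ n := fun q χ => by
    rw [sum_range_succ', if_neg (by omega), zero_mul, add_zero, psum]
    refine Eq.trans (sum_congr rfl fun n hn => ?_)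
      (sum_subset (range_subset_range.2 ht) fun n _ hn => ?_)
    · rw [if_pos ⟨by omega, mem_range.1 hn⟩]
    · rw [if_neg fun h => hn (mem_range.2 h.2), zero_mul]
  simp only [e]
  refine le_trans h (mul_le_mul_of_nonneg_left ?_ (by have := HH_nonneg (Q ^ 2); positivity))
  rw [sum_range_succ', if_neg (by omega), norm_zero, zero_pow two_ne_zero, add_zero]
  refine sum_le_sum fun n _ => ?_
  split_ifs
  · exact le_rfl
  · rw [norm_zero, zero_pow two_ne_zero]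
    positivity

lemma abel_ls (Q Y : ℕ) (b : ℕ → ℂ) : ∃ Z : (q : ℕ) → DirichletCharacter ℂ q → ℝ,
    (∀ q χ, 0 ≤ Z q χ) ∧
    (∀ (q : ℕ) (χ : DirichletCharacter ℂ q) (w : ℂ), 0 ≤ w.re →
      ‖∑ n ∈ range Y, b (n + 1) * χ ((n + 1 : ℕ) : ZMod q) * ((n + 1 : ℕ) : ℂ) ^ (-w)‖
        ≤ (1 + ‖w‖) * Z q χ) ∧
    psumQ Q (fun q χ => Z q χ ^ 2) ≤ (2 + Real.log Y) ^ 2 *
      ((((Y + 1 : ℕ) : ℝ) + ((Q ^ 2 : ℕ) : ℝ) * HH (Q ^ 2)) * ∑ n ∈ range Y, ‖b (n + 1)‖ ^ 2) := by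
  refine ⟨fun q χ => ‖psum (fun n => b n * χ (n : ZMod q)) Y‖ + ∑ n ∈ range Y,
    (((n + 1 : ℕ) : ℝ))⁻¹ * ‖psum (fun n => b n * χ (n : ZMod q)) (n + 1)‖,
    fun q χ => add_nonneg (norm_nonneg _) (sum_nonneg fun n _ => by positivity),
    fun q χ w hw => Abel_sum (fun n => b n * χ (n : ZMod q)) hw Y, ?_⟩
  set B := (((Y + 1 : ℕ) : ℝ) + ((Q ^ 2 : ℕ) : ℝ) * HH (Q ^ 2)) * ∑ n ∈ range Y, ‖b (n + 1)‖ ^ 2
    with hB
  have hB0 : 0 ≤ B := by
    have := HH_nonneg (Q ^ 2)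
    positivity
  have hW := sum_range_inv_le Y
  have hW0 : 0 ≤ ∑ n ∈ range Y, (((n + 1 : ℕ) : ℝ))⁻¹ := sum_nonneg fun n _ => by positivity
  refine (psumQ_mono fun q _ _ χ _ => Abel_cs _ _ _ _ fun n => by positivity).trans ?_
  rw [psumQ_mul, psumQ_add, psumQ_sum]
  simp only [psumQ_mul]
  have h1 : ∑ n ∈ range Y, (((n + 1 : ℕ) : ℝ))⁻¹ *
      psumQ Q (fun q χ => ‖psum (fun n => b n * χ (n : ZMod q)) (n + 1)‖ ^ 2)
      ≤ (∑ n ∈ range Y, (((n + 1 : ℕ) : ℝ))⁻¹) * B := by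
    rw [sum_mul]
    exact sum_le_sum fun n hn =>
      mul_le_mul_of_nonneg_left (Abel_ls Q Y b (mem_range.1 hn)) (by positivity)
  have h2 := Abel_ls Q Y b le_rfl
  calc _ ≤ (1 + ∑ n ∈ range Y, (((n + 1 : ℕ) : ℝ))⁻¹) *
        (B + (∑ n ∈ range Y, (((n + 1 : ℕ) : ℝ))⁻¹) * B) :=
        mul_le_mul_of_nonneg_left (add_le_add h2 h1) (by linarith)
    _ = (1 + ∑ n ∈ range Y, (((n + 1 : ℕ) : ℝ))⁻¹) ^ 2 * B := by ring
    _ ≤ _ := mul_le_mul_of_nonneg_right (pow_le_pow_left₀ (by linarith) (by linarith) 2) hB0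

end Pool.Agent.Work.MP_814e7e_nt
end
end

-- merged part: Pool.Agent.Work.MP_814e7e_nt.Good
section
/-!
Outside a set of `Q ^ (3 - 2 σ₀ + η)` characters the L-function has no zero in a long rectangle (Carlson's
mollifier argument).

PLAN. P s = sum_{n<Q} χ(n+1) (n+1)^(-s), M s = sum_{m<Q} μ(m+1) χ(m+1) (m+1)^(-s).
(1) mul_eq: P s * M s - 1 = sum_{k<Q^2} cc Q (k+1) χ(k+1) (k+1)^(-s) (sum_mul_sum, sum_fiberwise_of_maps_to along
(m,n) ↦ m n, Complex.natCast_mul_natCast_cpow). cc Q k = 0 for k ≤ Q (sum of μ over the divisors,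
ArithmeticFunction.coe_moebius_mul_coe_zeta or sum_moebius_eq), |cc Q k| ≤ number of divisors of k for k > Q.
(2) s = σ₀ + w, 1 + ‖w‖ ≤ 5 H. abel_ls Q (Q^2) with b k = cc Q k * k^(-σ₀) gives Z1; the sum of ‖b‖^2 is at most
C^2 (Q^2)^(2 e) sum_{k>Q} k^(-2σ₀) ≤ C' Q^(4 e) Q^(1-2σ₀) (exists_card_divisors_le, sum_rpow_tail_le with 2σ₀-1).
abel_ls Q Q with b m = μ m * m^(-σ₀) gives Z2, sum of ‖b‖^2 ≤ sum 1/m ≤ 1 + log Q.
(3) LFunction_eq_abel, abel_approx with K = √Q * HH Q (psum χ n = cs χ (n+1), norm_cs_le in Work/MP_5d318d_nt/Chars;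
χ ≠ 1 because χ is primitive of level ≥ 2): ‖L s - P s‖ ≤ 9 H K Q^(-σ₀) =: R.
(4) G q χ := 20 H Z1 ≤ 1 ∧ 20 H R Z2 ≤ 1. Then ‖L M - 1‖ ≤ 1/2, ‖M‖ ≤ Q, ‖L‖ ≤ Q + R ≤ 10 H Q (HH Q ≤ Q, √Q ≤ Q^σ₀).
cnt_or, cnt_le_psumQ with (20 H Z1)^2 and (20 H R Z2)^2; all logarithms are ≤ C Q^e (Real.log_le_rpow_div), e = η/10.
-/

set_option autoImplicit false

noncomputable section

open Finset

namespace Pool.Agent.Work.MP_814e7e_nt

open Pool.Agent.Lib.LargeSieve Pool.Agent.Lib.ANT Pool.Agent.Work.MP_5d318d_nt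

/-- Coefficients of the mollified initial sum minus one. -/
def cc (Q k : ℕ) : ℂ :=
  ∑ x ∈ (Icc 1 Q ×ˢ Icc 1 Q).filter (fun x => x.1 * x.2 = k),
    ((ArithmeticFunction.moebius x.1 : ℤ) : ℂ) - if k = 1 then 1 else 0

lemma Good_shift (g : ℕ → ℂ) (N : ℕ) : ∑ n ∈ range N, g (n + 1) = ∑ n ∈ Icc 1 N, g n := by
  induction N with
  | zero => simp
  | succ N ih => rw [sum_range_succ, sum_Icc_succ_top (by omega), ih]

lemma Good_mul_eq {f : ℕ → ℂ} (hf : ∀ m n, f (m * n) = f m * f n) (h1 : f 1 = 1) {Q : ℕ}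
    (hQ : 1 ≤ Q) :
    (∑ n ∈ range Q, f (n + 1)) *
        (∑ m ∈ range Q, ((ArithmeticFunction.moebius (m + 1) : ℤ) : ℂ) * f (m + 1)) - 1 =
      ∑ k ∈ range (Q ^ 2), cc Q (k + 1) * f (k + 1) := by
  rw [Good_shift f, Good_shift fun m => ((ArithmeticFunction.moebius m : ℤ) : ℂ) * f m,
    Good_shift fun k => cc Q k * f k]
  simp only [cc, sub_mul]
  rw [sum_sub_distrib]
  congr 1
  · rw [mul_comm, sum_mul_sum, ← sum_product', ← sum_fiberwise_of_maps_to (t := Icc 1 (Q ^ 2))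
      (g := fun x : ℕ × ℕ => x.1 * x.2)]
    · refine sum_congr rfl fun k _ => ?_
      rw [sum_mul]
      refine sum_congr rfl fun x hx => ?_
      rw [← (mem_filter.1 hx).2, hf, mul_assoc]
    · intro x hx
      obtain ⟨a, b⟩ := mem_product.1 hx
      rw [mem_Icc] at a b ⊢
      exact ⟨Nat.mul_pos a.1 b.1, by rw [sq]; exact Nat.mul_le_mul a.2 b.2⟩
  · rw [sum_eq_single_of_mem 1 (mem_Icc.2 ⟨le_rfl, Nat.one_le_pow _ _ hQ⟩)
      fun k _ hk => by rw [if_neg hk, zero_mul], if_pos rfl, one_mul, h1]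

lemma Good_cc_zero {Q k : ℕ} (h1 : 1 ≤ k) (hk : k ≤ Q) : cc Q k = 0 := by
  have e : (Icc 1 Q ×ˢ Icc 1 Q).filter (fun x => x.1 * x.2 = k) = k.divisorsAntidiagonal := by
    ext x
    rw [mem_filter, Nat.mem_divisorsAntidiagonal, mem_product, mem_Icc, mem_Icc]
    refine ⟨fun h => ⟨h.2, by omega⟩, fun h => ⟨?_, h.1⟩⟩
    have a : 0 < x.1 := Nat.pos_of_mul_pos_right (by rw [h.1]; exact h1)
    have b : 0 < x.2 := Nat.pos_of_mul_pos_left (by rw [h.1]; exact h1)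
    have c := Nat.le_mul_of_pos_right x.1 b
    have d := Nat.le_mul_of_pos_left x.2 a
    omega
  have h := congrArg (fun F : ArithmeticFunction ℂ => F k)
    (ArithmeticFunction.coe_moebius_mul_coe_zeta (R := ℂ))
  simp only [ArithmeticFunction.coe_mul_zeta_apply, ArithmeticFunction.intCoe_apply,
    ArithmeticFunction.one_apply] at h
  rw [cc, e, Nat.sum_divisorsAntidiagonal fun a _ => ((ArithmeticFunction.moebius a : ℤ) : ℂ), h,
    sub_self]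

lemma Good_mu (m : ℕ) : ‖((ArithmeticFunction.moebius m : ℤ) : ℂ)‖ ≤ 1 := by
  rw [Complex.norm_intCast]
  exact_mod_cast ArithmeticFunction.abs_moebius_le_one

lemma Good_cc_le (Q : ℕ) {k : ℕ} (hk : 2 ≤ k) : ‖cc Q k‖ ≤ k.divisors.card := by
  rw [cc, if_neg (by omega), sub_zero]
  refine (norm_sum_le _ _).trans ((sum_le_card_nsmul _ _ 1 fun x _ => Good_mu _).trans ?_)
  rw [nsmul_eq_mul, mul_one, Nat.cast_le, card_eq_sum_ones k.divisors,
    ← Nat.sum_divisorsAntidiagonal fun _ _ => 1, ← card_eq_sum_ones]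
  exact card_le_card fun x hx => Nat.mem_divisorsAntidiagonal.2 ⟨(mem_filter.1 hx).2, by omega⟩

lemma Good_norm (c : ℂ) (σ : ℝ) (k : ℕ) :
    ‖c * ((k + 1 : ℕ) : ℂ) ^ (-(σ : ℂ))‖ ^ 2 = ‖c‖ ^ 2 * ((k + 1 : ℕ) : ℝ) ^ (-(2 * σ - 1) - 1) := by
  rw [norm_mul, mul_pow, Complex.norm_natCast_cpow_of_pos (Nat.succ_pos _), Complex.neg_re,
    Complex.ofReal_re, sq (_ ^ (-σ)), ← Real.rpow_add (by positivity)]
  congr 2
  ring

lemma Good_S1 {σ e C : ℝ} (h0 : 1 / 2 < σ) (he : 0 ≤ e)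
    (hC : ∀ n : ℕ, (n.divisors.card : ℝ) ≤ C * (n : ℝ) ^ e) (hC0 : 0 ≤ C) {Q : ℕ} (hQ : 1 ≤ Q) :
    ∑ k ∈ range (Q ^ 2), ‖cc Q (k + 1) * ((k + 1 : ℕ) : ℂ) ^ (-(σ : ℂ))‖ ^ 2 ≤
      (C * ((Q : ℝ) ^ e) ^ 2) ^ 2 * ((Q : ℝ) ^ (-(2 * σ - 1)) / (2 * σ - 1)) := by
  obtain ⟨M, hM⟩ : ∃ M, Q ^ 2 = Q + M := Nat.exists_eq_add_of_le (Nat.le_self_pow two_ne_zero Q)
  rw [hM, sum_range_add, sum_eq_zero fun k hk => by
    rw [Good_cc_zero (by omega) (mem_range.1 hk), zero_mul, norm_zero, sq, zero_mul], zero_add]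
  refine le_trans ?_ (mul_le_mul_of_nonneg_left
    (sum_rpow_tail_le (σ := 2 * σ - 1) (by linarith) hQ M) (sq_nonneg _))
  rw [mul_sum]
  refine sum_le_sum fun k hk => ?_
  rw [Good_norm, add_comm Q k]
  refine mul_le_mul_of_nonneg_right (pow_le_pow_left₀ (norm_nonneg _) ?_ 2) (by positivity)
  refine (Good_cc_le Q (by omega)).trans ((hC _).trans (mul_le_mul_of_nonneg_left ?_ hC0))
  rw [sq, ← Real.mul_rpow (by positivity) (by positivity)]
  refine Real.rpow_le_rpow (by positivity) ?_ he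
  have h := mem_range.1 hk
  rw [sq] at hM
  exact_mod_cast (show k + Q + 1 ≤ Q * Q by omega)

lemma Good_S2 {σ : ℝ} (h0 : 1 / 2 < σ) (Q : ℕ) :
    ∑ k ∈ range Q, ‖((ArithmeticFunction.moebius (k + 1) : ℤ) : ℂ) *
      ((k + 1 : ℕ) : ℂ) ^ (-(σ : ℂ))‖ ^ 2 ≤ 1 + Real.log Q := by
  refine le_trans (sum_le_sum fun k _ => ?_) (sum_range_inv_le Q)
  rw [Good_norm, ← Real.rpow_neg_one]
  refine (mul_le_of_le_one_left (by positivity) (pow_le_one₀ (norm_nonneg _) (Good_mu _))).trans ?_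
  exact Real.rpow_le_rpow_of_exponent_le (by exact_mod_cast Nat.succ_pos _) (by linarith)

lemma Good_term (c x : ℂ) (σ : ℝ) (s : ℂ) (k : ℕ) :
    c * ((k + 1 : ℕ) : ℂ) ^ (-(σ : ℂ)) * x * ((k + 1 : ℕ) : ℂ) ^ (-(s - σ)) =
      c * (x * ((k + 1 : ℕ) : ℂ) ^ (-s)) := by
  rw [show -s = -(σ : ℂ) + -(s - σ) by ring,
    Complex.cpow_add _ _ (Nat.cast_ne_zero.2 (Nat.succ_ne_zero k))]
  ring

lemma Good_sum_le {q : ℕ} (χ : DirichletCharacter ℂ q) {s : ℂ} (hs : 0 ≤ s.re) (Q : ℕ) {c : ℕ → ℂ}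
    (hc : ∀ n, ‖c n‖ ≤ 1) :
    ‖∑ n ∈ range Q, c n * (χ ((n + 1 : ℕ) : ZMod q) * ((n + 1 : ℕ) : ℂ) ^ (-s))‖ ≤ Q := by
  refine (norm_sum_le _ _).trans ((sum_le_card_nsmul _ _ 1 fun n _ => ?_).trans (by simp))
  rw [norm_mul, norm_mul, Complex.norm_natCast_cpow_of_pos (Nat.succ_pos _), Complex.neg_re]
  refine mul_le_one₀ (hc n) (by positivity) (mul_le_one₀ (χ.norm_le_one _) (by positivity) ?_)
  exact Real.rpow_le_one_of_one_le_of_nonpos (by exact_mod_cast Nat.succ_pos _) (by linarith)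

lemma Good_approx {σ H : ℝ} (h0 : 1 / 2 < σ) (hH : 1 ≤ H) {q Q : ℕ} [NeZero q] (hq : 2 ≤ q)
    (hQ : q ≤ Q) {χ : DirichletCharacter ℂ q} (hχ : χ.IsPrimitive) {s : ℂ} (h1 : σ ≤ s.re)
    (h2 : s.re ≤ 3) (h3 : |s.im| ≤ H) :
    ‖χ.LFunction s - ∑ n ∈ range Q, χ ((n + 1 : ℕ) : ZMod q) * ((n + 1 : ℕ) : ℂ) ^ (-s)‖ ≤
      9 * H * (√Q * (1 + Real.log Q) * (Q : ℝ) ^ (-σ)) := by
  have hne : χ ≠ 1 := fun h => by
    rw [DirichletCharacter.isPrimitive_def, h, DirichletCharacter.conductor_one] at hχ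
    omega
  have hK : ∀ n, ‖psum (fun n => χ n) n‖ ≤ √Q * (1 + Real.log Q) := fun n => by
    have h := norm_cs_le hq hχ (n + 1)
    have : Nontrivial (ZMod q) := ZMod.nontrivial_iff.2 (by omega)
    rw [cs, sum_range_succ', Nat.cast_zero, χ.map_zero, add_zero] at h
    refine le_trans h (mul_le_mul (Real.sqrt_le_sqrt (by exact_mod_cast hQ))
      ((HH_mono hQ).trans (HH_le Q)) (HH_nonneg _) (Real.sqrt_nonneg _))
  have hs : 0 < s.re := by linarith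
  have h := abel_approx hK hs (N := Q) (by omega)
  rw [← LFunction_eq_abel hne hs] at h
  refine h.trans ?_
  have hK0 := (norm_nonneg _).trans (hK 0)
  have a1 : ‖s‖ ≤ 4 * H := by
    have := Complex.norm_le_abs_re_add_abs_im s
    rw [abs_of_pos hs] at this
    linarith
  have a2 : 1 + ‖s‖ / s.re ≤ 9 * H := by
    clear * - s H hs σ h0 h1 a1 hH
    have : ‖s‖ / s.re ≤ 8 * H := by
      rw [div_le_iff₀ hs]
      nlinarith
    linarith
  have a3 : (Q : ℝ) ^ (-s.re) ≤ (Q : ℝ) ^ (-σ) :=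
    Real.rpow_le_rpow_of_exponent_le (by exact_mod_cast (show 1 ≤ Q by omega)) (by linarith)
  calc _ ≤ √Q * (1 + Real.log Q) * (9 * H) * (Q : ℝ) ^ (-σ) := by clear * - Q s H σ a2 a3 hH; gcongr
    _ = _ := by ring

lemma Good_low {L P M : ℂ} {R x : ℝ} (h1 : ‖P * M - 1‖ ≤ 1 / 4) (h2 : ‖L - P‖ ≤ R)
    (h3 : R * ‖M‖ ≤ 1 / 4) (h4 : ‖M‖ ≤ x) (hx : 0 < x) : 1 / (2 * x) ≤ ‖L‖ := by
  have a1 : ‖(L - P) * M‖ ≤ 1 / 4 := by
    rw [norm_mul]
    exact (mul_le_mul_of_nonneg_right h2 (norm_nonneg _)).trans h3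
  have a2 : (1 : ℂ) = L * M - (L - P) * M - (P * M - 1) := by ring
  have a3 : ‖(1 : ℂ)‖ ≤ ‖L * M‖ + ‖(L - P) * M‖ + ‖P * M - 1‖ := by
    rw [a2]
    refine (norm_sub_le _ _).trans (add_le_add (norm_sub_le _ _) ?_)
    rw [← a2]
  rw [norm_one, norm_mul] at a3
  have a4 := mul_le_mul_of_nonneg_left h4 (norm_nonneg L)
  rw [div_le_iff₀ (by positivity)]
  linarith

lemma Good_HH {Q : ℕ} (hQ : 2 ≤ Q) {Y : ℕ} (hY : Y ≤ Q ^ 2) :
    ((Y + 1 : ℕ) : ℝ) + ((Q ^ 2 : ℕ) : ℝ) * HH (Q ^ 2) ≤ 3 * (Q : ℝ) ^ 2 * (1 + Real.log Q) := by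
  have h1 : (2 : ℝ) ≤ Q := by exact_mod_cast hQ
  have h2 := HH_le (Q ^ 2)
  have h3 : (Y : ℝ) ≤ (Q : ℝ) ^ 2 := by exact_mod_cast hY
  have h4 := Real.log_nonneg (show (1 : ℝ) ≤ Q by linarith)
  push_cast at h2 ⊢
  rw [Real.log_pow] at h2
  have h5 := mul_le_mul_of_nonneg_left h2 (sq_nonneg (Q : ℝ))
  have h6 := mul_nonneg (sq_nonneg (Q : ℝ)) h4
  push_cast at h5
  clear * - Y Q h1 h3 h5 h6
  nlinarith

lemma exists_good {σ₀ η : ℝ} (h0 : 1 / 2 < σ₀) (h1 : σ₀ < 1) (hη : 0 < η) :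
    ∃ C : ℝ, ∀ Q : ℕ, 2 ≤ Q → ∀ H : ℝ, 1 ≤ H →
      ∃ G : (q : ℕ) → DirichletCharacter ℂ q → Prop,
        cnt Q (fun q χ => ¬ G q χ) ≤ C * H ^ 4 * (Q : ℝ) ^ (3 - 2 * σ₀ + η) ∧
        ∀ (q : ℕ) [NeZero q], 2 ≤ q → q ≤ Q → ∀ χ : DirichletCharacter ℂ q, χ.IsPrimitive → G q χ →
          ∀ s : ℂ, σ₀ ≤ s.re → s.re ≤ 3 → |s.im| ≤ H →
            1 / (2 * (Q : ℝ)) ≤ ‖χ.LFunction s‖ ∧ ‖χ.LFunction s‖ ≤ 10 * H * Q := by
  have he : 0 < η / 10 := by positivity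
  obtain ⟨C, hC1, hC⟩ := exists_card_divisors_le _ he
  have hδ : 0 < 2 * σ₀ - 1 := by linarith
  refine ⟨4800 * C ^ 2 * (1 + 1 / (η / 10)) ^ 3 / (2 * σ₀ - 1) + 388800 * (1 + 1 / (η / 10)) ^ 6,
    fun Q hQ H hH => ?_⟩
  obtain ⟨Z1, z0, z1, z2⟩ := abel_ls Q (Q ^ 2) fun k => cc Q k * (k : ℂ) ^ (-(σ₀ : ℂ))
  obtain ⟨Z2, y0, y1, y2⟩ := abel_ls Q Q fun k =>
    ((ArithmeticFunction.moebius k : ℤ) : ℂ) * (k : ℂ) ^ (-(σ₀ : ℂ))
  have hx : (2 : ℝ) ≤ Q := by exact_mod_cast hQ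
  have hx0 : (0 : ℝ) < Q := by linarith
  have hl := Real.log_nonneg (show (1 : ℝ) ≤ Q by linarith)
  obtain ⟨R, hR⟩ : ∃ R, R = 9 * H * (√Q * (1 + Real.log Q) * (Q : ℝ) ^ (-σ₀)) := ⟨_, rfl⟩
  have hR0 : 0 ≤ R := by
    rw [hR]
    positivity
  refine ⟨fun q χ => 20 * H * Z1 q χ ≤ 1 ∧ 20 * H * R * Z2 q χ ≤ 1, ?_,
    fun q _ hq hqQ χ hχ hG s s1 s2 s3 => ?_⟩
  · have c1 : cnt Q (fun q χ => ¬ 20 * H * Z1 q χ ≤ 1) ≤
        (20 * H) ^ 2 * psumQ Q fun q χ => Z1 q χ ^ 2 := by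
      rw [← psumQ_mul]
      refine cnt_le_psumQ (fun q χ => by positivity) fun q _ _ χ _ h => ?_
      rw [← mul_pow]
      exact one_le_pow₀ (not_le.1 h).le
    have c2 : cnt Q (fun q χ => ¬ 20 * H * R * Z2 q χ ≤ 1) ≤
        (20 * H * R) ^ 2 * psumQ Q fun q χ => Z2 q χ ^ 2 := by
      rw [← psumQ_mul]
      refine cnt_le_psumQ (fun q χ => by positivity) fun q _ _ χ _ h => ?_
      rw [← mul_pow]
      exact one_le_pow₀ (not_le.1 h).le
    have c3 := (cnt_mono (Q := Q)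
      (P := fun q χ => ¬ (20 * H * Z1 q χ ≤ 1 ∧ 20 * H * R * Z2 q χ ≤ 1))
      fun q _ _ χ _ h => not_and_or.1 h).trans (cnt_or Q _ _)
    obtain ⟨T, hT⟩ : ∃ T, T = (Q : ℝ) ^ (η / 10) := ⟨_, rfl⟩
    obtain ⟨y, hy⟩ : ∃ y, y = (Q : ℝ) ^ (-(2 * σ₀ - 1)) := ⟨_, rfl⟩
    have hT1 : 1 ≤ T := hT ▸ Real.one_le_rpow (by linarith) he.le
    have hy0 : 0 ≤ y := by
      rw [hy]
      positivity
    have e1 : (Q : ℝ) ^ (3 - 2 * σ₀ + η) = (Q : ℝ) ^ 2 * y * T ^ 10 := by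
      rw [hT, hy, ← Real.rpow_natCast, ← Real.rpow_natCast, ← Real.rpow_mul hx0.le,
        ← Real.rpow_add hx0, ← Real.rpow_add hx0]
      congr 1
      push_cast
      ring
    have e2 : R ^ 2 = 81 * H ^ 2 * (1 + Real.log Q) ^ 2 * y := by
      have e3 : (Q : ℝ) * ((Q : ℝ) ^ (-σ₀)) ^ 2 = y := by
        rw [hy, sq, ← Real.rpow_add hx0, mul_comm, ← Real.rpow_add_one hx0.ne']
        congr 1
        ring
      rw [hR, mul_pow, mul_pow, mul_pow, mul_pow, Real.sq_sqrt hx0.le, ← e3]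
      ring
    have hΛ : 1 + Real.log Q ≤ (1 + 1 / (η / 10)) * T := by
      have := Real.log_le_rpow_div hx0.le he
      rw [← hT] at this
      rw [add_mul, one_mul, one_div, inv_mul_eq_div]
      linarith
    have b1 : psumQ Q (fun q χ => Z1 q χ ^ 2) ≤ (2 * (1 + Real.log Q)) ^ 2 *
        (3 * (Q : ℝ) ^ 2 * (1 + Real.log Q) * ((C * T ^ 2) ^ 2 * (y / (2 * σ₀ - 1)))) := by
      clear * - Q Z1 σ₀ C T y z2 hQ η hT hy h0 he hC h1 hC1
      refine z2.trans (le_of_eq_of_le (congrArg (· * _) ?_) (mul_le_mul_of_nonneg_left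
        (mul_le_mul (Good_HH hQ le_rfl) ?_ (by positivity) (by positivity)) (sq_nonneg _)))
      · rw [Nat.cast_pow, Real.log_pow]
        push_cast
        ring
      · rw [hT, hy]
        exact Good_S1 h0 he.le hC (by linarith) (by omega)
    have b2 : psumQ Q (fun q χ => Z2 q χ ^ 2) ≤ (2 * (1 + Real.log Q)) ^ 2 *
        (3 * (Q : ℝ) ^ 2 * (1 + Real.log Q) * (1 + Real.log Q)) := by
      clear * - Q Z2 σ₀ y2 hl hQ h0
      refine y2.trans (mul_le_mul (pow_le_pow_left₀ (by positivity) (by linarith) 2)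
        (mul_le_mul (Good_HH hQ (Nat.le_self_pow two_ne_zero Q)) (Good_S2 h0 Q) (by positivity)
          (by positivity)) ?_ (sq_nonneg _))
      have := HH_nonneg (Q ^ 2)
      positivity
    have hc0 : 0 ≤ 1 + 1 / (η / 10) := by positivity
    have hΛ0 : 0 ≤ 1 + Real.log Q := by linarith
    generalize 1 + 1 / (η / 10) = c at hΛ hc0 ⊢
    generalize 1 + Real.log Q = Λ at hΛ hΛ0 b1 b2 e2
    have d1 : (20 * H) ^ 2 * psumQ Q (fun q χ => Z1 q χ ^ 2) ≤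
        4800 * C ^ 2 * c ^ 3 / (2 * σ₀ - 1) * H ^ 4 * ((Q : ℝ) ^ 2 * y * T ^ 10) := by
      clear * - H Q Z1 C c σ₀ y T Λ b1 hΛ0 hΛ hQ hC1 hT1 hy0 hδ hH hc0
      calc _ ≤ (20 * H) ^ 2 * ((2 * (c * T)) ^ 2 * (3 * (Q : ℝ) ^ 2 * (c * T) *
            ((C * T ^ 2) ^ 2 * (y / (2 * σ₀ - 1))))) := by
            refine mul_le_mul_of_nonneg_left (b1.trans ?_) (sq_nonneg _)
            gcongr
        _ = 4800 * C ^ 2 * c ^ 3 / (2 * σ₀ - 1) * H ^ 2 * ((Q : ℝ) ^ 2 * y * T ^ 7) := by ring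
        _ ≤ _ := by gcongr <;> norm_num
    have d2 : (20 * H * R) ^ 2 * psumQ Q (fun q χ => Z2 q χ ^ 2) ≤
        388800 * c ^ 6 * H ^ 4 * ((Q : ℝ) ^ 2 * y * T ^ 10) := by
      clear * - H R Q Z2 c y T Λ b2 e2 hΛ0 hΛ hH hQ hy0 hT1
      calc _ ≤ (20 * H * R) ^ 2 * ((2 * Λ) ^ 2 * (3 * (Q : ℝ) ^ 2 * Λ * Λ)) :=
            mul_le_mul_of_nonneg_left b2 (sq_nonneg _)
        _ = 388800 * Λ ^ 6 * H ^ 4 * ((Q : ℝ) ^ 2 * y) := by
            rw [mul_pow, e2]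
            ring
        _ ≤ 388800 * (c * T) ^ 6 * H ^ 4 * ((Q : ℝ) ^ 2 * y) := by gcongr
        _ = 388800 * c ^ 6 * H ^ 4 * ((Q : ℝ) ^ 2 * y * T ^ 6) := by ring
        _ ≤ _ := by gcongr; norm_num
    rw [e1, add_mul, add_mul]
    clear * - Q H Z1 R Z2 C c σ₀ y T c1 c2 c3 d1 d2
    linarith
  · have hs : 0 ≤ s.re := by linarith
    have w1 : 0 ≤ (s - σ₀).re := by
      rw [Complex.sub_re, Complex.ofReal_re]
      linarith
    have w2 : 1 + ‖s - σ₀‖ ≤ 5 * H := by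
      have := Complex.norm_le_abs_re_add_abs_im (s - σ₀)
      rw [abs_of_nonneg w1, Complex.sub_re, Complex.ofReal_re, Complex.sub_im, Complex.ofReal_im,
        sub_zero] at this
      linarith
    have p1 := (z1 q χ _ w1).trans (mul_le_mul_of_nonneg_right w2 (z0 q χ))
    have p2 := (y1 q χ _ w1).trans (mul_le_mul_of_nonneg_right w2 (y0 q χ))
    simp only [Good_term] at p1 p2
    have p3 := Good_mul_eq (f := fun k : ℕ => χ (k : ZMod q) * (k : ℂ) ^ (-s))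
      (fun m n => by
        rw [Nat.cast_mul, Nat.cast_mul, map_mul, Complex.natCast_mul_natCast_cpow]
        ring) (by simp) (Q := Q) (by omega)
    rw [← p3] at p1
    have p4 := Good_approx h0 hH hq hqQ hχ s1 s2 s3
    rw [← hR] at p4
    have p5 := mul_le_mul_of_nonneg_left p2 hR0
    refine ⟨Good_low (p1.trans (by linarith [hG.1])) p4 (p5.trans (by linarith [hG.2]))
      (Good_sum_le χ hs Q fun n => Good_mu _) hx0, ?_⟩
    have p6 := Good_sum_le χ hs Q (c := fun _ => 1) fun _ => norm_one.le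
    simp only [one_mul] at p6
    have p7 := norm_le_insert' (χ.LFunction s)
      (∑ n ∈ range Q, χ ((n + 1 : ℕ) : ZMod q) * ((n + 1 : ℕ) : ℂ) ^ (-s))
    have p8 : √Q * (Q : ℝ) ^ (-σ₀) ≤ 1 := by
      clear * - Q σ₀ hx0 h0 h1 hx
      rw [Real.sqrt_eq_rpow, ← Real.rpow_add hx0]
      exact Real.rpow_le_one_of_one_le_of_nonpos (by linarith) (by linarith)
    have p9 : 1 + Real.log Q ≤ Q := by linarith [Real.log_le_sub_one_of_pos hx0]
    have p10 : R ≤ 9 * H * (1 * Q) := by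
      clear * - R H Q σ₀ hR p8 p9 hH
      rw [hR, mul_right_comm √Q]
      gcongr
    nlinarith

end Pool.Agent.Work.MP_814e7e_nt
end
end

-- merged part: Pool.Agent.Work.MP_814e7e_nt.LogDer
section
/-!
A bound for the logarithmic derivative of a function without zeros in a disc.

PLAN. deriv f / f is differentiable on ball s r, so it has a primitive g there with g s = 0
(DifferentiableOn.isExactOn_ball, IsExactOn.with_val_at). f z * exp (- g z) has derivative 0 on the ball, hence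
f z = f s * exp (g z) and re (g z) ≤ A. F z = exp (g z / A) has norm ≤ e on the ball and deriv F s = (f'/f)(s) / A.
Cauchy estimate Complex.norm_deriv_le_of_forall_mem_sphere_norm_le on radius r / 2 gives ‖deriv F s‖ ≤ 2 e / r ≤ 6 / r.
-/

set_option autoImplicit false

noncomputable section

namespace Pool.Agent.Work.MP_814e7e_nt

lemma logDeriv_bound {f : ℂ → ℂ} (hf : Differentiable ℂ f) {s : ℂ} {r A : ℝ} (hr : 0 < r)
    (hA : 0 < A) (h0 : ∀ z ∈ Metric.ball s r, f z ≠ 0)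
    (hb : ∀ z ∈ Metric.ball s r, ‖f z‖ ≤ Real.exp A * ‖f s‖) :
    ‖deriv f s / f s‖ ≤ 6 * A / r := by
  have hs : s ∈ Metric.ball s r := Metric.mem_ball_self hr
  have h1 : DifferentiableOn ℂ (fun z => deriv f z / f z) (Metric.ball s r) :=
    hf.deriv.differentiableOn.div hf.differentiableOn h0
  obtain ⟨g, g0, hg⟩ := h1.isExactOn_ball.with_val_at s 0
  have h2 : ∀ z ∈ Metric.ball s r, HasDerivAt (fun z => f z * Complex.exp (-g z)) 0 z := by
    intro z hz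
    refine ((hf z).hasDerivAt.mul (hg z hz).neg.cexp).congr_deriv ?_
    have := h0 z hz
    simp only [Pi.neg_apply]
    field_simp
    ring
  have h3 : ∀ z ∈ Metric.ball s r, (g z).re ≤ A := by
    intro z hz
    have h4 : f z * Complex.exp (-g z) = f s * Complex.exp (-g s) :=
      Metric.isOpen_ball.is_const_of_deriv_eq_zero (convex_ball s r).isPreconnected
        (fun w hw => (h2 w hw).differentiableAt.differentiableWithinAt)
        (fun w hw => (h2 w hw).deriv) hz hs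
    rw [g0, neg_zero, Complex.exp_zero, mul_one, Complex.exp_neg,
      mul_inv_eq_iff_eq_mul₀ (Complex.exp_ne_zero _)] at h4
    have h5 := hb z hz
    rw [h4, norm_mul, Complex.norm_exp, mul_comm] at h5
    exact Real.exp_le_exp.1 (le_of_mul_le_mul_right h5 (norm_pos_iff.2 (h0 s hs)))
  have h4 : ∀ z ∈ Metric.ball s r, HasDerivAt (fun z => Complex.exp (g z / A))
      (Complex.exp (g z / A) * (deriv f z / f z / A)) z := fun z hz =>
    ((hg z hz).div_const _).cexp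
  have h5 : Metric.closedBall s (r / 2) ⊆ Metric.ball s r :=
    Metric.closedBall_subset_ball (by linarith)
  have h6 := Complex.norm_deriv_le_of_forall_mem_sphere_norm_le (C := 3) (half_pos hr)
    (DifferentiableOn.diffContOnCl_ball
      (fun w hw => (h4 w hw).differentiableAt.differentiableWithinAt) h5) fun z hz => by
      rw [Complex.norm_exp, Complex.div_ofReal_re]
      refine le_trans (Real.exp_le_exp.2 ((div_le_one hA).2
        (h3 z (h5 (Metric.sphere_subset_closedBall hz))))) ?_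
      exact Real.exp_one_lt_three.le
  rw [(h4 s hs).deriv, g0, zero_div, Complex.exp_zero, one_mul, norm_div, Complex.norm_real,
    Real.norm_of_nonneg hA.le, div_le_iff₀ hA] at h6
  refine h6.trans (le_of_eq ?_)
  field_simp
  ring

end Pool.Agent.Work.MP_814e7e_nt
end
end
end

-- merged part: Pool.Agent.Work.MP_814e7e_nt.Main
section
-- merged part: Pool.Agent.Work.MP_814e7e_nt.Explicit
section
/-!
The logarithmic derivative as a short sum over prime powers (model: cesaro_bound in Lib/ANT/Perron).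

PLAN. F w = - deriv L (σ + w) / L (σ + w), T = y ^ 2. perron (c = 1) for a n = χ n Λ n n^(-σ) (its LSeries at w is the
LSeries of χ Λ at σ + w, equal to F w on re w = 1 by LSeries_twist_vonMangoldt_eq) and perron_one with x = 1 / y give
∫ (F w - F 0) y^w / (w (w+1)) dt = 2 π (S - F 0 (1 - 1/y)), w = 1 + t I. Φ w = dslope F 0 w * (y^w / (w+1)) is
differentiable on the rectangle [-η, 1] × [-T, T] (Complex.differentiableOn_dslope, the rectangle is a neighbourhood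
of 0) and equals the integrand for w ≠ 0 (dslope_of_ne, slope_def_field).
integral_boundary_rect_eq_zero_of_differentiableOn. Bounds: on re w = 1, ‖F w‖ ≤ 20 (norm_LSeries_twist_le with σ / 2),
tail ≤ 2 (20 + M) y / T (norm_integral_sub_le, norm_kernel_le); horizontal sides ≤ 2 * (2 M y / T^2) each; left side
‖Φ‖ ≤ 2 M y^(-η) / (η^2 (1 + t^2)), integral of 1/(1+t^2) ≤ π. Finally 1 / y ≤ y^(-η), 11 ≤ 3 / η^2.
-/

set_option autoImplicit false

noncomputable section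

open Finset ArithmeticFunction

namespace Pool.Agent.Work.MP_814e7e_nt

open Pool.Agent.Lib.ANT

open Complex in
/-- The contour shift across the removable singularity at zero. -/
lemma Explicit_shift {F : ℂ → ℂ} {η y M : ℝ} (hη : 0 < η) (hη1 : η ≤ 1 / 2) (hy : 2 ≤ y)
    (hM : 1 ≤ M)
    (h : ∀ w : ℂ, -η ≤ w.re → w.re ≤ 1 → |w.im| ≤ y ^ 2 → DifferentiableAt ℂ F w ∧ ‖F w‖ ≤ M) :
    ‖∫ t : ℝ in (-y ^ 2)..y ^ 2, (F ((1 : ℝ) + t * I) - F 0) * ((y : ℂ) ^ (((1 : ℝ) : ℂ) + t * I) *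
        (1 / (((1 : ℝ) + t * I) * ((1 : ℝ) + t * I + 1))))‖
      ≤ 2 * Real.pi * (M * y ^ (-η) / η ^ 2) + 2 * (M / y) := by
  have hy0 : 0 < y := by linarith
  have hy' : (y : ℂ) ≠ 0 := by exact_mod_cast hy0.ne'
  obtain ⟨T, hT⟩ : ∃ T, T = y ^ 2 := ⟨_, rfl⟩
  rw [← hT] at h ⊢
  have hT0 : 0 < T := by rw [hT]; positivity
  set Φ : ℂ → ℂ := fun w => dslope F 0 w * ((y : ℂ) ^ w * (1 / (w + 1))) with hΦ
  have hΦe : ∀ w : ℂ, w ≠ 0 → Φ w = (F w - F 0) * ((y : ℂ) ^ w * (1 / (w * (w + 1)))) := by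
    intro w hw
    simp only [hΦ, dslope_of_ne F hw, slope_def_field, sub_zero, mul_inv, div_eq_mul_inv]
    ring
  have hF0 := (h 0 (by simp [hη.le]) (by simp) (by simp [hT0.le])).2
  have hΦn : ∀ w : ℂ, -η ≤ w.re → w.re ≤ 1 → |w.im| ≤ T → ∀ D : ℝ, 0 < D → D ≤ ‖w‖ * ‖w + 1‖ →
      ‖Φ w‖ ≤ 2 * M * (y ^ w.re * D⁻¹) := fun w a1 a2 a3 D d1 d2 => by
    have hw : w ≠ 0 := by
      rintro rfl
      rw [norm_zero, zero_mul] at d2
      linarith
    rw [hΦe w hw, norm_mul, norm_mul, norm_cpow_eq_rpow_re_of_pos hy0, norm_div, norm_one,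
      norm_mul, one_div]
    gcongr
    linarith [norm_sub_le (F w) (F 0), (h w a1 a2 a3).2]
  have hC := integral_boundary_rect_eq_zero_of_differentiableOn Φ ⟨-η, -T⟩ ⟨1, T⟩ (by
    clear * - Φ η T hη hη1 hT0 F y M h hy'
    rw [Set.uIcc_of_le (by simp; linarith), Set.uIcc_of_le (by simp; linarith)]
    refine DifferentiableOn.mul ((differentiableOn_dslope (Filter.inter_mem
      (continuous_re.continuousAt.preimage_mem_nhds (Icc_mem_nhds ?_ ?_))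
      (continuous_im.continuousAt.preimage_mem_nhds (Icc_mem_nhds ?_ ?_)))).2 ?_) ?_
    · simpa using hη
    · simp
    · simpa using hT0
    · simpa using hT0
    · rintro s ⟨⟨a1, a2⟩, a3⟩
      exact (h s a1 a2 (abs_le.2 a3)).1.differentiableWithinAt
    · rintro s ⟨⟨a1, -⟩, -⟩
      refine ((differentiableAt_id.const_cpow (Or.inl hy')).mul ((differentiableAt_const _).div
        (by fun_prop) fun k => ?_)).differentiableWithinAt
      have := congrArg re k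
      simp only [add_re, one_re, zero_re] at this a1
      linarith)
  simp only at hC
  have hH : ∀ u : ℝ, |u| = T → ‖∫ x : ℝ in (-η)..1, Φ (x + u * I)‖ ≤ M / y := by
    clear * - T Φ η M y hΦn hη hη1 hT0 hy hM hT
    intro u hu
    refine (intervalIntegral.norm_integral_le_of_norm_le_const (C := 2 * M * (y * (T ^ 2)⁻¹))
      fun x hx => ?_).trans ?_
    · rw [Set.uIoc_of_le (by linarith)] at hx
      have a1 := abs_im_le_norm (x + u * I : ℂ)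
      have a2 := abs_im_le_norm (x + u * I + 1 : ℂ)
      simp only [add_im, ofReal_im, mul_im, ofReal_re, I_im, mul_one, I_re, mul_zero, add_zero,
        zero_add, one_im, hu] at a1 a2
      refine (hΦn _ (by simpa using hx.1.le) (by simpa using hx.2) (by simpa using hu.le) (T ^ 2)
        (by positivity) (by rw [sq]; gcongr)).trans ?_
      rw [show (x + u * I : ℂ).re = x by simp]
      have := Real.rpow_le_rpow_of_exponent_le (by linarith : 1 ≤ y) hx.2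
      rw [Real.rpow_one] at this
      gcongr
    · rw [abs_of_nonneg (by linarith)]
      calc _ ≤ 2 * M * (y * (T ^ 2)⁻¹) * 2 := by gcongr; linarith
        _ = M / y * (4 / y ^ 2) := by rw [hT]; field_simp; norm_num
        _ ≤ M / y := mul_le_of_le_one_right (by positivity)
            ((div_le_one (by positivity)).2 (by nlinarith))
  have hV : ‖∫ t : ℝ in (-T)..T, Φ ((-η : ℝ) + t * I)‖
      ≤ 2 * Real.pi * (M * y ^ (-η) / η ^ 2) := by
    clear * - Φ η T M y hT0 hη1 hη hΦn hy hM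
    refine (intervalIntegral.norm_integral_le_of_norm_le (by linarith)
      (g := fun t => 2 * (M * y ^ (-η) / η ^ 2) * (1 + t ^ 2)⁻¹)
      (Filter.Eventually.of_forall fun t ht => ?_)
      (integrable_inv_one_add_sq.const_mul _).intervalIntegrable).trans ?_
    · have a1 : ‖((-η : ℝ) + t * I : ℂ)‖ ^ 2 = (-η) ^ 2 + t ^ 2 := by
        rw [Complex.sq_norm, normSq_add_mul_I]
      have a2 : ‖((-η : ℝ) + t * I + 1 : ℂ)‖ ^ 2 = (-η + 1) ^ 2 + t ^ 2 := by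
        rw [Complex.sq_norm, ← normSq_add_mul_I]; congr 1; push_cast; ring
      have a3 : ‖((-η : ℝ) + t * I : ℂ)‖ ≤ ‖((-η : ℝ) + t * I + 1 : ℂ)‖ :=
        le_of_pow_le_pow_left₀ (n := 2) (by norm_num) (norm_nonneg _) (by rw [a1, a2]; nlinarith)
      have a4 := mul_le_mul_of_nonneg_left a3 (norm_nonneg ((-η : ℝ) + t * I : ℂ))
      have a5 : η ^ 2 * t ^ 2 ≤ 1 * t ^ 2 := by gcongr; nlinarith
      refine (hΦn _ (by simp) (by simp; linarith) (by simpa using abs_le.2 ⟨ht.1.le, ht.2⟩)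
        (η ^ 2 * (1 + t ^ 2)) (by positivity) (by nlinarith)).trans_eq ?_
      rw [show ((-η : ℝ) + t * I : ℂ).re = -η by simp]
      field_simp
    · rw [intervalIntegral.integral_const_mul, integral_inv_one_add_sq]
      have a1 := Real.arctan_lt_pi_div_two T
      have a2 := Real.neg_pi_div_two_lt_arctan (-T)
      calc _ ≤ 2 * (M * y ^ (-η) / η ^ 2) * Real.pi := by gcongr; linarith
        _ = _ := by ring
  have e : I • ∫ t : ℝ in (-T)..T, Φ ((1 : ℝ) + t * I) = I • (∫ t : ℝ in (-T)..T,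
      Φ ((-η : ℝ) + t * I)) + ((∫ x : ℝ in (-η)..1, Φ (x + T * I)) -
        ∫ x : ℝ in (-η)..1, Φ (x + (-T : ℝ) * I)) := by
    linear_combination hC
  have a1 := hH T (abs_of_nonneg hT0.le)
  have a2 := hH (-T) (by rw [abs_neg, abs_of_nonneg hT0.le])
  have a3 := congrArg norm e
  have a4 : ∀ t : ℝ, (((1 : ℝ) : ℂ) + t * I) ≠ 0 := fun t k => by simpa using congrArg re k
  rw [norm_smul, norm_I, one_mul] at a3
  simp only [hΦe _ (a4 _)] at a3
  rw [a3]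
  refine (norm_add_le _ _).trans (add_le_add ?_ ((norm_sub_le _ _).trans (by linarith)))
  rwa [norm_smul, norm_I, one_mul]

open Complex in
/-- Perron's formula at a shifted point. -/
lemma Explicit_perron {q : ℕ} [NeZero q] (χ : DirichletCharacter ℂ q) {σ y : ℝ} (h0 : 0 < σ)
    (hy : 0 < y) {K : ℕ} (hK : y ≤ K) :
    ∫ t : ℝ, LSeries ((fun n : ℕ => χ n) * fun n : ℕ => (vonMangoldt n : ℂ))
        (σ + ((1 : ℝ) + t * I)) * ((y : ℂ) ^ (((1 : ℝ) : ℂ) + t * I) *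
          (1 / (((1 : ℝ) + t * I) * ((1 : ℝ) + t * I + 1)))) = 2 * Real.pi *
      ∑ n ∈ range K, ((vonMangoldt n * (n : ℝ) ^ (-σ) * max (1 - n / y) 0 : ℝ) : ℂ) * χ n := by
  have ht : ∀ w : ℂ,
      LSeries.term (fun n : ℕ => ((vonMangoldt n * (n : ℝ) ^ (-σ) : ℝ) : ℂ) * χ n) w =
      LSeries.term ((fun n : ℕ => χ n) * fun n : ℕ => (vonMangoldt n : ℂ)) (σ + w) := fun w => by
    funext n
    rcases Nat.eq_zero_or_pos n with rfl | hn
    · simp
    · have hn' : (n : ℂ) ≠ 0 := by exact_mod_cast hn.ne'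
      rw [LSeries.term_of_ne_zero hn.ne', LSeries.term_of_ne_zero hn.ne', ofReal_mul,
        ofReal_cpow n.cast_nonneg, cpow_add _ _ hn', Pi.mul_apply, ofReal_neg, cpow_neg,
        ofReal_natCast]
      simp only [div_eq_mul_inv, mul_inv]
      ring
  have hP := perron (a := fun n : ℕ => ((vonMangoldt n * (n : ℝ) ^ (-σ) : ℝ) : ℂ) * χ n) (by simp)
    (c := 1) le_rfl (by
      rw [LSeriesSummable, ht]
      exact χ.LSeriesSummable_twist_vonMangoldt (by simpa using h0)) hy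
  simp only [LSeries, ht] at hP
  refine (hP.unique (hasSum_sum_of_ne_finset_zero (s := range K) fun n hn => ?_)).trans ?_
  · have : (K : ℝ) ≤ n := by exact_mod_cast not_lt.1 (mem_range.not.1 hn)
    have : 1 ≤ n / y := by rw [le_div_iff₀ hy]; linarith
    rw [max_eq_right (by linarith)]; simp
  · rw [← mul_sum]
    refine congrArg _ (sum_congr rfl fun n _ => ?_)
    rw [ofReal_mul (_ * _)]
    ring

open Complex MeasureTheory in
lemma explicit_bound {q : ℕ} [NeZero q] {χ : DirichletCharacter ℂ q} (hχ : χ ≠ 1) {σ η y M : ℝ}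
    (h0 : 1 / 2 < σ) (h1 : σ < 1) (hη : 0 < η) (hη1 : η ≤ 1 / 2) (hy : 2 ≤ y) (hM : 1 ≤ M)
    (h : ∀ s : ℂ, σ - η ≤ s.re → s.re ≤ σ + 1 → |s.im| ≤ y ^ 2 →
      χ.LFunction s ≠ 0 ∧ ‖deriv χ.LFunction s / χ.LFunction s‖ ≤ M) {K : ℕ} (hK : y ≤ K) :
    ‖deriv χ.LFunction σ / χ.LFunction σ‖ ≤
      ‖∑ n ∈ range K, ((vonMangoldt n * (n : ℝ) ^ (-σ) * max (1 - n / y) 0 : ℝ) : ℂ) * χ n‖
        + 4 * M * y ^ (-η) / η ^ 2 := by
  have hy0 : 0 < y := by linarith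
  have hy' : (y : ℂ) ≠ 0 := by exact_mod_cast hy0.ne'
  have hLd := DirichletCharacter.differentiable_LFunction hχ
  have hLd' : Differentiable ℂ (deriv χ.LFunction) := hLd.deriv
  obtain ⟨F, hF⟩ : ∃ F : ℂ → ℂ,
      F = fun w => -deriv χ.LFunction (σ + w) / χ.LFunction (σ + w) := ⟨_, rfl⟩
  have hR : ∀ w : ℂ, -η ≤ w.re → w.re ≤ 1 → |w.im| ≤ y ^ 2 →
      DifferentiableAt ℂ F w ∧ ‖F w‖ ≤ M := fun w a1 a2 a3 => by
    obtain ⟨b1, b2⟩ := h (σ + w) (by simp; linarith) (by simpa using a2) (by simpa using a3)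
    have d0 : DifferentiableAt ℂ (fun w : ℂ => σ + w) w := by fun_prop
    rw [hF]
    exact ⟨((hLd' _).comp w d0).neg.div ((hLd _).comp w d0) b1, by
      beta_reduce
      rwa [neg_div, norm_neg]⟩
  have hF0 := (hR 0 (by simp [hη.le]) (by simp) (by simp [sq_nonneg])).2
  have hGe : ∀ t : ℝ, LSeries ((fun n : ℕ => χ n) * fun n : ℕ => (vonMangoldt n : ℂ))
      (σ + ((1 : ℝ) + t * I)) = F ((1 : ℝ) + t * I) := fun t => by
    have hs : 1 < (σ + ((1 : ℝ) + t * I) : ℂ).re := by simp; linarith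
    rw [hF, χ.LSeries_twist_vonMangoldt_eq hs]
    beta_reduce
    rw [χ.deriv_LFunction_eq_deriv_LSeries hs, χ.LFunction_eq_LSeries hs]
  have hP := Explicit_perron χ (by linarith : 0 < σ) hy0 hK
  simp only [hGe] at hP
  have hS : ∀ t : ℝ, ‖F ((1 : ℝ) + t * I)‖ ≤ 20 := fun t => by
    clear * - F t q χ σ hGe h0 h1
    rw [← hGe]
    refine (norm_LSeries_twist_le χ (ε := σ / 2) (by linarith) (by simp; ring)).trans ?_
    have : 1 / (σ / 2) ≤ 4 := by rw [div_le_iff₀ (by linarith)]; linarith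
    rw [div_le_iff₀ (by linarith)]
    linarith
  have hc : Continuous fun t : ℝ => (((1 : ℝ) : ℂ) + t * I) := by fun_prop
  have hFc : Continuous fun t : ℝ => F ((1 : ℝ) + t * I) := by
    have hc' : Continuous fun t : ℝ => (σ + ((1 : ℝ) + t * I) : ℂ) := by fun_prop
    rw [hF]
    exact (hLd'.continuous.comp hc').neg.div (hLd.continuous.comp hc') fun t =>
      χ.LFunction_ne_zero_of_one_le_re (Or.inl hχ) (by simp; linarith)
  obtain ⟨k, hk⟩ : ∃ k : ℝ → ℂ, ∀ t : ℝ, (y : ℂ) ^ (((1 : ℝ) : ℂ) + t * I) *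
      (1 / (((1 : ℝ) + t * I) * ((1 : ℝ) + t * I + 1))) = k t := ⟨_, fun _ => rfl⟩
  have hkn : ∀ t, ‖k t‖ ≤ y * (1 + t ^ 2)⁻¹ := fun t => by
    rw [← hk, norm_mul, norm_cpow_eq_rpow_re_of_pos hy0,
      show (((1 : ℝ) : ℂ) + t * I).re = 1 by simp, Real.rpow_one]
    exact mul_le_mul_of_nonneg_left (norm_kernel_le le_rfl t) hy0.le
  have hki : Integrable k := by
    refine (integrable_inv_one_add_sq.const_mul y).mono' (Continuous.aestronglyMeasurable ?_)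
      (Filter.Eventually.of_forall hkn)
    rw [← funext hk]
    exact (hc.const_cpow (Or.inl hy')).mul
      (continuous_const.div (by fun_prop) (kernel_ne_zero one_pos))
  have hk1 := perron_one (c := 1) le_rfl (inv_pos.2 hy0)
  have hinv : ∀ w : ℂ, ((y⁻¹ : ℝ) : ℂ) ^ (-w) = (y : ℂ) ^ w := fun w => by
    rw [ofReal_inv, inv_cpow _ _ (by rw [arg_ofReal_of_nonneg hy0.le]; exact Real.pi_pos.ne),
      cpow_neg, inv_inv]
  have hy1 : y⁻¹ ≤ 1 := inv_le_one_of_one_le₀ (by linarith)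
  rw [max_eq_left (by linarith)] at hk1
  have h2 := Explicit_shift hη hη1 hy hM hR
  simp only [hinv, hk] at hk1 hP h2
  have hFi := hki.bdd_mul hFc.aestronglyMeasurable (Filter.Eventually.of_forall hS)
  have hI : ∫ t : ℝ, (F ((1 : ℝ) + t * I) - F 0) * k t = 2 * Real.pi *
      (∑ n ∈ range K, ((vonMangoldt n * (n : ℝ) ^ (-σ) * max (1 - n / y) 0 : ℝ) : ℂ) * χ n -
        F 0 * ((1 - y⁻¹ : ℝ) : ℂ)) := by
    simp only [sub_mul]
    rw [integral_sub hFi (hki.const_mul _), integral_const_mul, hP, hk1]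
    ring
  have h3 := norm_integral_sub_le (G := fun t : ℝ => (F ((1 : ℝ) + t * I) - F 0) * k t)
    ((hFi.sub (hki.const_mul (F 0))).congr
      (Filter.Eventually.of_forall fun t => (sub_mul _ _ _).symm))
    (C := 21 * M * y) (T := y ^ 2) (by positivity) fun t ht => by
      clear * - t y hy ht F k M hM hF0 hS hkn σ h0 h1
      have a1 : 0 < |t| := lt_of_lt_of_le (by positivity) ht
      have a2 : 0 < t ^ 2 := by rw [← sq_abs]; positivity
      rw [norm_mul, mul_assoc]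
      refine mul_le_mul (by linarith [norm_sub_le (F ((1 : ℝ) + t * I)) (F 0), hS t])
        ((hkn t).trans ?_) (norm_nonneg _) (by positivity)
      gcongr
      linarith
  have h4 : ‖(2 * Real.pi : ℂ)‖ = 2 * Real.pi := by
    rw [norm_mul, norm_real, Real.norm_of_nonneg Real.pi_pos.le]; simp
  rw [hI, norm_mul, h4, show 2 * (21 * M * y) / y ^ 2 = 42 * (M / y) by field_simp; norm_num] at h3
  have e0 : ‖deriv χ.LFunction σ / χ.LFunction σ‖ = ‖F 0‖ := by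
    rw [hF]
    beta_reduce
    rw [add_zero, neg_div, norm_neg]
  rw [e0]
  generalize (∑ n ∈ range K,
    ((vonMangoldt n * (n : ℝ) ^ (-σ) * max (1 - n / y) 0 : ℝ) : ℂ) * χ n) = S at h3 ⊢
  have h5 : ‖F 0‖ ≤ ‖S‖ + ‖S - F 0 * ((1 - y⁻¹ : ℝ) : ℂ)‖ + M / y := by
    have e1 : F 0 = S - (S - F 0 * ((1 - y⁻¹ : ℝ) : ℂ)) + F 0 * ((y⁻¹ : ℝ) : ℂ) := by
      push_cast; ring
    refine (congrArg norm e1).trans_le ((norm_add_le _ _).trans (add_le_add (norm_sub_le _ _) ?_))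
    rw [norm_mul, norm_real, Real.norm_of_nonneg (by positivity), div_eq_mul_inv]
    gcongr
  have h6 : M / y ≤ M * y ^ (-η) / η ^ 2 / 4 := by
    clear * - y η σ h0 h1 hy hη1 hη M hM
    have a1 : y⁻¹ ≤ y ^ (-η) := by
      rw [← Real.rpow_neg_one]
      exact Real.rpow_le_rpow_of_exponent_le (by linarith) (by linarith)
    have a2 : η ^ 2 * 4 ≤ 1 := by nlinarith
    rw [div_div, div_eq_mul_inv M y, le_div_iff₀ (by positivity)]
    calc _ ≤ M * y ^ (-η) * 1 := by gcongr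
      _ = _ := mul_one _
  have h7 : 0 ≤ M / y := by positivity
  have h8 : ‖S - F 0 * ((1 - y⁻¹ : ℝ) : ℂ)‖ ≤ M * y ^ (-η) / η ^ 2 + 8 * (M / y) := by
    clear * - S F y M η k h2 h3 h7
    refine le_of_mul_le_mul_left ?_ (by positivity : 0 < 2 * Real.pi)
    nlinarith [mul_le_mul_of_nonneg_right Real.pi_gt_three.le h7]
  have e2 : 4 * M * y ^ (-η) / η ^ 2 = 4 * (M * y ^ (-η) / η ^ 2) := by ring
  linarith

end Pool.Agent.Work.MP_814e7e_nt
end
end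

-- merged part: Pool.Agent.Work.MP_814e7e_nt.Div
section
/-!
A number of size `exp ((log Q) ^ (1 + η / 8))` has at most `Q ^ η` divisors up to `Q`.

PLAN. Rankin with s = η / 2, L = log Q: the count is at most Q^s sum_{d ∣ m} d^(-s) ≤ Q^s prod_{p ∣ m} (1 - p^(-s))⁻¹
(EulerProduct.summable_and_hasSum_factoredNumbers_prod_filter_prime_geometric with the monoid hom n ↦ (n:ℝ)^(-s) on
m.primeFactors, divisors of m are factored numbers; or induction on coprime prime powers). Primes p ≤ √L: at most √L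
factors, each ≤ (1 - 2^(-s))⁻¹. Primes p > √L: p^(-s) ≤ L^(-η/4) ≤ 1/2, (1 - x)⁻¹ ≤ exp (2 x), at most
2 log m of them (2 ^ card primeFactors ≤ m, Nat.prod_primeFactors_dvd). So the product is at most
exp (C √L + 4 L^(1 - η/8)) ≤ exp (s L) for large L.
-/

set_option autoImplicit false

noncomputable section

open Finset Filter

namespace Pool.Agent.Work.MP_814e7e_nt

lemma Div_rankin {s : ℝ} (hs : 0 < s) (Q m : ℕ) (hm : 0 < m) :
    (((Icc 1 Q).filter (· ∣ m)).card : ℝ) ≤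
      (Q : ℝ) ^ s * ∏ p ∈ m.primeFactors, (1 - (p : ℝ) ^ (-s))⁻¹ := by
  let f : ℕ →* ℝ :=
    { toFun := fun n => (n : ℝ) ^ (-s)
      map_one' := by simp
      map_mul' := fun a b => by
        rw [Nat.cast_mul, Real.mul_rpow (Nat.cast_nonneg a) (Nat.cast_nonneg b)] }
  have hf0 : ∀ n, 0 ≤ f n := fun n => Real.rpow_nonneg (Nat.cast_nonneg n) _
  have hf : ∀ {p : ℕ}, p.Prime → ‖f p‖ < 1 := fun {p} hp => by
    rw [Real.norm_of_nonneg (hf0 p)]
    exact Real.rpow_lt_one_of_one_lt_of_neg (by exact_mod_cast hp.one_lt) (by linarith)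
  have h := (EulerProduct.summable_and_hasSum_factoredNumbers_prod_filter_prime_geometric hf
    m.primeFactors).2
  rw [filter_true_of_mem fun p hp => Nat.prime_of_mem_primeFactors hp] at h
  have h1 := sum_le_hasSum ((Icc 1 Q).filter (· ∣ m))
    (fun n _ => Set.indicator_nonneg (fun k _ => hf0 k) n) (hasSum_subtype_iff_indicator.1 h)
  refine le_trans ?_ (mul_le_mul_of_nonneg_left h1 (by positivity))
  rw [mul_sum, card_eq_sum_ones, Nat.cast_sum]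
  refine sum_le_sum fun d hd => ?_
  obtain ⟨h2, h3⟩ := mem_filter.1 hd
  obtain ⟨h4, h5⟩ := mem_Icc.1 h2
  have h6 : (0 : ℝ) < d := by exact_mod_cast h4
  rw [Set.indicator_of_mem (Nat.mem_factoredNumbers_of_primeFactors_subset (by omega)
    (Nat.primeFactors_mono h3 hm.ne'))]
  change ((1 : ℕ) : ℝ) ≤ (Q : ℝ) ^ s * (d : ℝ) ^ (-s)
  rw [Real.rpow_neg h6.le, ← div_eq_mul_inv, Nat.cast_one, one_le_div (by positivity)]
  exact Real.rpow_le_rpow h6.le (by exact_mod_cast h5) hs.le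

lemma Div_prod {s : ℝ} (hs : 0 < s) (m : ℕ) :
    ∏ p ∈ m.primeFactors, (1 - (p : ℝ) ^ (-s))⁻¹ ≤
      Real.exp ((1 - (2 : ℝ) ^ (-s))⁻¹ * ∑ p ∈ m.primeFactors, (p : ℝ) ^ (-s)) := by
  have h2 : (2 : ℝ) ^ (-s) < 1 := Real.rpow_lt_one_of_one_lt_of_neg one_lt_two (by linarith)
  have h3 : ∀ p ∈ m.primeFactors, (p : ℝ) ^ (-s) ≤ (2 : ℝ) ^ (-s) := fun p hp =>
    Real.rpow_le_rpow_of_nonpos two_pos
      (by exact_mod_cast (Nat.prime_of_mem_primeFactors hp).two_le) (by linarith)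
  rw [mul_sum, Real.exp_sum]
  refine prod_le_prod (fun p hp => inv_nonneg.2 (by linarith [h3 p hp])) fun p hp => ?_
  have h4 := h3 p hp
  have h5 : 0 ≤ (p : ℝ) ^ (-s) := by positivity
  have h6 : 0 < 1 - (p : ℝ) ^ (-s) := by linarith
  refine le_trans ?_ (Real.add_one_le_exp _)
  have h7 : (1 - (p : ℝ) ^ (-s))⁻¹ = (1 - (p : ℝ) ^ (-s))⁻¹ * (p : ℝ) ^ (-s) + 1 := by
    field_simp
    ring
  rw [h7]
  gcongr

lemma Div_omega {m : ℕ} (hm : 0 < m) : (m.primeFactors.card : ℝ) ≤ 2 * Real.log m := by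
  have h1 : 2 ^ m.primeFactors.card ≤ m :=
    (pow_card_le_prod _ _ 2 fun p hp => (Nat.prime_of_mem_primeFactors hp).two_le).trans
      (Nat.le_of_dvd hm (Nat.prod_primeFactors_dvd m))
  have h2 : Real.log ((2 : ℝ) ^ m.primeFactors.card) ≤ Real.log m :=
    Real.log_le_log (by positivity) (by exact_mod_cast h1)
  rw [Real.log_pow] at h2
  have h3 := Real.log_two_gt_d9
  have h4 : (0 : ℝ) ≤ m.primeFactors.card := Nat.cast_nonneg _
  nlinarith

lemma Div_sum {s y : ℝ} (hs : 0 < s) (hy : 0 < y) {m : ℕ} (hm : 0 < m) :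
    ∑ p ∈ m.primeFactors, (p : ℝ) ^ (-s) ≤ y + 2 * Real.log m * y ^ (-s) := by
  rw [← sum_filter_add_sum_filter_not m.primeFactors fun p => (p : ℝ) ≤ y]
  refine add_le_add ?_ ?_
  · refine (sum_le_card_nsmul _ _ 1 fun p hp => Real.rpow_le_one_of_one_le_of_nonpos ?_
      (by linarith)).trans ?_
    · exact_mod_cast (Nat.prime_of_mem_primeFactors (mem_filter.1 hp).1).one_le
    · have h1 : (m.primeFactors.filter fun p : ℕ => (p : ℝ) ≤ y) ⊆ Icc 1 ⌊y⌋₊ := fun p hp =>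
        mem_Icc.2 ⟨(Nat.prime_of_mem_primeFactors (mem_filter.1 hp).1).one_le,
          Nat.le_floor (mem_filter.1 hp).2⟩
      have h2 := card_le_card h1
      rw [Nat.card_Icc, Nat.add_sub_cancel] at h2
      rw [nsmul_eq_mul, mul_one]
      exact (Nat.cast_le.2 h2).trans (Nat.floor_le hy.le)
  · refine (sum_le_card_nsmul _ _ (y ^ (-s)) fun p hp => Real.rpow_le_rpow_of_nonpos hy
      (not_le.1 (mem_filter.1 hp).2).le (by linarith)).trans ?_
    rw [nsmul_eq_mul]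
    exact mul_le_mul_of_nonneg_right ((Nat.cast_le.2 (card_filter_le _ _)).trans (Div_omega hm))
      (by positivity)

lemma few_divisors {η : ℝ} (hη : 0 < η) (hη1 : η ≤ 1) : ∀ᶠ Q : ℕ in atTop, ∀ m : ℕ, 0 < m →
    Real.log m ≤ Real.log Q ^ (1 + η / 8) →
      (((Icc 1 Q).filter (· ∣ m)).card : ℝ) ≤ (Q : ℝ) ^ η := by
  obtain ⟨C, hC⟩ : ∃ C : ℝ, C = (1 - (2 : ℝ) ^ (-(η / 2)))⁻¹ := ⟨_, rfl⟩
  have hC0 : 0 ≤ C := by
    have h2 : (2 : ℝ) ^ (-(η / 2)) < 1 := Real.rpow_lt_one_of_one_lt_of_neg one_lt_two (by linarith)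
    rw [hC]
    exact inv_nonneg.2 (by linarith)
  have hL : Tendsto (fun Q : ℕ => Real.log Q) atTop atTop :=
    Real.tendsto_log_atTop.comp tendsto_natCast_atTop_atTop
  filter_upwards [hL.eventually_ge_atTop 1, eventually_gt_atTop 0,
    ((tendsto_rpow_atTop (by positivity : 0 < η / 8)).comp hL).eventually_ge_atTop (6 * C / η)]
    with Q h1 hQ h2 m hm hlog
  have hQ' : (0 : ℝ) < Q := by exact_mod_cast hQ
  have hη2 : 0 < η / 2 := by positivity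
  have e : (Q : ℝ) ^ η = (Q : ℝ) ^ (η / 2) * Real.exp (Real.log Q * (η / 2)) := by
    rw [← Real.rpow_def_of_pos hQ', ← Real.rpow_add hQ', add_halves]
  simp only [Function.comp] at h2
  generalize Real.log Q = L at h1 h2 hlog e
  have hL0 : 0 < L := by linarith
  rw [e]
  refine (Div_rankin hη2 Q m hm).trans (mul_le_mul_of_nonneg_left
    ((Div_prod hη2 m).trans (Real.exp_le_exp.2 ?_)) (by positivity))
  rw [← hC]
  have h3 := Div_sum hη2 (Real.rpow_pos_of_pos hL0 (1 / 2)) hm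
  have h4 : L ^ (1 / 2 : ℝ) ≤ L ^ (1 - η / 8) := Real.rpow_le_rpow_of_exponent_le h1 (by linarith)
  have h5 : Real.log m * (L ^ (1 / 2 : ℝ)) ^ (-(η / 2)) ≤ L ^ (1 - η / 8) := by
    refine (mul_le_mul_of_nonneg_right hlog (by positivity)).trans_eq ?_
    rw [← Real.rpow_mul hL0.le, ← Real.rpow_add hL0]
    congr 1
    ring
  have h6 : L ^ (η / 8) * L ^ (1 - η / 8) = L := by
    rw [← Real.rpow_add hL0, add_sub_cancel, Real.rpow_one]
  have h7 : 0 < L ^ (1 - η / 8) := Real.rpow_pos_of_pos hL0 _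
  rw [div_le_iff₀ hη] at h2
  calc C * ∑ p ∈ m.primeFactors, (p : ℝ) ^ (-(η / 2)) ≤ C * (3 * L ^ (1 - η / 8)) :=
        mul_le_mul_of_nonneg_left (by clear * - m η L h3 h4 h5 hC0; linarith) hC0
    _ = 6 * C * L ^ (1 - η / 8) / 2 := by ring
    _ ≤ L ^ (η / 8) * η * L ^ (1 - η / 8) / 2 := by gcongr
    _ = L ^ (η / 8) * L ^ (1 - η / 8) * (η / 2) := by ring
    _ = L * (η / 2) := by rw [h6]

end Pool.Agent.Work.MP_814e7e_nt
end
end

-- merged part: Pool.Agent.Work.MP_814e7e_nt.Main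
section
/-!
The tail bound for the logarithmic derivative over all primitive characters of conductor up to `Q`.
-/

set_option autoImplicit false

noncomputable section

open Finset Filter ArithmeticFunction

namespace Pool.Agent.Work.MP_814e7e_nt

lemma exists_length {η : ℝ} (hη : 0 < η) : ∀ᶠ L : ℝ in atTop, ∃ J : ℕ, 1 ≤ J ∧
    L ^ (2 / η) ≤ 2 ^ J ∧ (2 : ℝ) ^ J ≤ 4 * L ^ (2 / η) ∧ (J : ℝ) ≤ L ^ (η / 8) := by
  have hθ : 0 < η ^ 2 / 32 := by positivity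
  filter_upwards [eventually_ge_atTop 1, (tendsto_rpow_atTop (show 0 < η / 16 by positivity)).eventually_ge_atTop
    (2 * (4 : ℝ) ^ (η ^ 2 / 32) / (η ^ 2 / 32))] with L hL hL2
  have hL0 : 0 < L := by linarith
  have h1 : 1 ≤ L ^ (2 / η) := Real.one_le_rpow hL (by positivity)
  set N := ⌈L ^ (2 / η)⌉₊ with hN
  have hN0 : N ≠ 0 := (Nat.ceil_pos.2 (by linarith)).ne'
  have h2 : (2 : ℝ) ^ (Nat.log 2 N + 1) ≤ 4 * L ^ (2 / η) := by
    clear * - N hN0 L η h1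
    have a1 : (2 : ℝ) ^ Nat.log 2 N ≤ N := by exact_mod_cast Nat.pow_log_le_self 2 hN0
    have a2 := (Nat.ceil_lt_add_one (show 0 ≤ L ^ (2 / η) by linarith)).le
    rw [pow_succ]; linarith
  refine ⟨Nat.log 2 N + 1, Nat.le_add_left _ _, (Nat.le_ceil _).trans ?_, h2, ?_⟩
  · exact_mod_cast (Nat.lt_pow_succ_log_self one_lt_two N).le
  · set J := Nat.log 2 N + 1
    have a1 := Real.log_le_rpow_div (show (0 : ℝ) ≤ 2 ^ J by positivity) hθ
    rw [Real.log_pow] at a1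
    have a2 : ((2 : ℝ) ^ J) ^ (η ^ 2 / 32) ≤ 4 ^ (η ^ 2 / 32) * L ^ (η / 16) := by
      clear * - J η L h2 hθ h1 hL0 hη
      refine (Real.rpow_le_rpow (by positivity) h2 hθ.le).trans_eq ?_
      rw [Real.mul_rpow (by norm_num) (by linarith), ← Real.rpow_mul hL0.le]
      congr 2; field_simp; ring
    have a3 : L ^ (η / 8) = L ^ (η / 16) * L ^ (η / 16) := by
      rw [← Real.rpow_add hL0]; congr 1; ring
    have a4 : (J : ℝ) * (1 / 2) ≤ J * Real.log 2 := by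
      clear * - J N
      have := Real.log_two_gt_d9
      gcongr; linarith
    have a5 : ((2 : ℝ) ^ J) ^ (η ^ 2 / 32) / (η ^ 2 / 32)
        ≤ 4 ^ (η ^ 2 / 32) * L ^ (η / 16) / (η ^ 2 / 32) := by gcongr
    calc (J : ℝ) ≤ 2 * (4 ^ (η ^ 2 / 32) * L ^ (η / 16) / (η ^ 2 / 32)) := by clear * - J η L a1 a4 a5 a3; linarith
      _ = 2 * (4 : ℝ) ^ (η ^ 2 / 32) / (η ^ 2 / 32) * L ^ (η / 16) := by ring
      _ ≤ _ := by rw [a3]; gcongr

lemma exists_cut {σ C V : ℝ} (h0 : 0 < σ) (h1 : σ < 1) (hC : 1 ≤ C) (hV : 2 * C ≤ V) :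
    ∃ j : ℕ, 1 ≤ j ∧ C * ((2 : ℝ) ^ j) ^ (1 - σ) ≤ V ∧
      (1 - σ) / (4 * C ^ (1 / (1 - σ))) * V ^ (1 / (1 - σ)) / Real.log V ≤ 2 ^ j / j := by
  have hC0 : 0 < C := by linarith
  have hV0 : 0 < V := by linarith
  have hs : 0 < 1 - σ := by linarith
  have h2 : 2 ≤ V / C := by rwa [le_div_iff₀ hC0]
  set z : ℝ := (V / C) ^ (1 / (1 - σ)) with hz
  have hz2 : 2 ≤ z := h2.trans (Real.self_le_rpow_of_one_le (by linarith)
    (by rw [le_div_iff₀ hs]; linarith))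
  have hN : 2 ≤ ⌊z⌋₊ := Nat.le_floor (by exact_mod_cast hz2)
  have hj : 1 ≤ Nat.log 2 ⌊z⌋₊ := Nat.le_log_of_pow_le one_lt_two (by simpa using hN)
  set j := Nat.log 2 ⌊z⌋₊
  have a1 : (2 : ℝ) ^ j ≤ z := le_trans (by exact_mod_cast Nat.pow_log_le_self 2 (by omega))
    (Nat.floor_le (by linarith))
  have a2 : z ≤ 2 * 2 ^ j := by
    have b1 : ⌊z⌋₊ + 1 ≤ 2 ^ (j + 1) := Nat.lt_pow_succ_log_self one_lt_two _
    have b2 : ((⌊z⌋₊ : ℕ) : ℝ) + 1 ≤ 2 ^ (j + 1) := by exact_mod_cast b1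
    have := Nat.lt_floor_add_one z
    rw [pow_succ] at b2; linarith
  have a3 : z ^ (1 - σ) = V / C := by
    rw [hz, ← Real.rpow_mul (by linarith), one_div_mul_cancel hs.ne', Real.rpow_one]
  have a4 : ((2 : ℝ) ^ j) ^ (1 - σ) ≤ V / C := a3 ▸ Real.rpow_le_rpow (by positivity) a1 hs.le
  have hj0 : (0 : ℝ) < j := by exact_mod_cast hj
  have hlV : 0 < Real.log V := Real.log_pos (by linarith)
  refine ⟨j, hj, by rwa [le_div_iff₀ hC0, mul_comm] at a4, ?_⟩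
  have a5 : (1 - σ) * (j * Real.log 2) ≤ Real.log V := by
    have := Real.log_le_log (by positivity) (a4.trans (div_le_self hV0.le hC))
    rwa [Real.log_rpow (by positivity), Real.log_pow] at this
  have a6 : (1 - σ) * (j * (1 / 2)) ≤ (1 - σ) * (j * Real.log 2) := by
    clear * - σ j h0 h1 hj
    have := Real.log_two_gt_d9
    gcongr; linarith
  have e : (1 - σ) / (4 * C ^ (1 / (1 - σ))) * V ^ (1 / (1 - σ)) = (1 - σ) / 4 * z := by
    rw [hz, Real.div_rpow hV0.le hC0.le]; field_simp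
  rw [e, div_le_div_iff₀ hlV hj0]
  calc (1 - σ) / 4 * z * j ≤ (1 - σ) / 4 * (2 * 2 ^ j) * j := by gcongr
    _ = 2 ^ j * ((1 - σ) * (j * (1 / 2))) := by ring
    _ ≤ _ := by clear * - j σ V a5 a6; gcongr; linarith

/-- The character fails the bound `V`. -/
def Bad (σ V : ℝ) (q : ℕ) (χ : DirichletCharacter ℂ q) : Prop :=
  ∃ _ : NeZero q, ¬ (χ.LFunction σ ≠ 0 ∧ ‖deriv χ.LFunction σ / χ.LFunction σ‖ ≤ V)

lemma good_bound {q : ℕ} [NeZero q] {χ : DirichletCharacter ℂ q} (hχ : χ ≠ 1) {σ η y Q : ℝ}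
    (h0 : 1 / 2 < σ) (h1 : σ < 1) (hη : 0 < η) (hη1 : η ≤ 1 / 2) (hy : 2 ≤ y) (hQ0 : 0 < Q)
    (hQ : 20 * (y ^ 2 + 1) ≤ Q) (hL : 72 / η ^ 3 ≤ Real.log Q) (hyL : Real.log Q ^ (2 / η) ≤ y)
    (h : ∀ s : ℂ, σ - 2 * η ≤ s.re → s.re ≤ 3 → |s.im| ≤ y ^ 2 + 1 →
      1 / (2 * Q) ≤ ‖χ.LFunction s‖ ∧ ‖χ.LFunction s‖ ≤ 10 * (y ^ 2 + 1) * Q)
    {K : ℕ} (hK : y ≤ K) :
    χ.LFunction σ ≠ 0 ∧ ‖deriv χ.LFunction σ / χ.LFunction σ‖ ≤
      1 + ‖∑ n ∈ range K, ((wt σ y n : ℝ) : ℂ) * χ (n : ZMod q)‖ := by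
  have hne : ∀ s : ℂ, σ - 2 * η ≤ s.re → s.re ≤ 3 → |s.im| ≤ y ^ 2 + 1 → χ.LFunction s ≠ 0 :=
    fun s a b c => norm_pos_iff.1 (lt_of_lt_of_le (by positivity) (h s a b c).1)
  have hη3 : η ^ 3 ≤ 1 := pow_le_one₀ hη.le (by linarith)
  have hL1 : 72 ≤ Real.log Q := le_trans (le_div_self (by norm_num) (by positivity) hη3) hL
  have hL0 : 0 < Real.log Q := by linarith
  refine ⟨hne _ (by simp; linarith) (by simp; linarith) (by simp; positivity), ?_⟩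
  have key := explicit_bound hχ h0 h1 hη hη1 hy (M := 6 * (3 * Real.log Q) / η)
    (by rw [le_div_iff₀ hη]; linarith) (fun s a b c => ?_) hK
  · refine key.trans ?_
    rw [add_comm]
    refine add_le_add ?_ le_rfl
    have a1 : y ^ (-η) ≤ (Real.log Q ^ 2)⁻¹ := by
      refine (Real.rpow_le_rpow_of_nonpos (by positivity) hyL (by linarith)).trans_eq ?_
      rw [← Real.rpow_mul hL0.le, show 2 / η * -η = -2 by field_simp, Real.rpow_neg hL0.le,
        Real.rpow_two]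
    calc _ ≤ 4 * (6 * (3 * Real.log Q) / η) * (Real.log Q ^ 2)⁻¹ / η ^ 2 := by gcongr
      _ = 72 / η ^ 3 / Real.log Q := by field_simp; ring
      _ ≤ 1 := (div_le_one hL0).2 hL
  · have hb : ∀ z ∈ Metric.ball s η,
        σ - 2 * η ≤ z.re ∧ z.re ≤ 3 ∧ |z.im| ≤ y ^ 2 + 1 := fun z hz => by
      clear * - z s η hz y c σ a h0 h1 hη1 b
      have b0 : ‖z - s‖ < η := by rwa [Metric.mem_ball, dist_eq_norm] at hz
      have b1 := abs_le.1 ((Complex.abs_re_le_norm (z - s)).trans b0.le)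
      have b2 := abs_le.1 ((Complex.abs_im_le_norm (z - s)).trans b0.le)
      have b3 := abs_le.1 c
      rw [Complex.sub_re] at b1
      rw [Complex.sub_im] at b2
      exact ⟨by linarith, by linarith, abs_le.2 ⟨by linarith, by linarith⟩⟩
    obtain ⟨s1, s2, s3⟩ := hb s (Metric.mem_ball_self hη)
    refine ⟨hne s s1 s2 s3, logDeriv_bound (χ.differentiable_LFunction hχ) hη (by linarith)
      (fun z hz => hne z (hb z hz).1 (hb z hz).2.1 (hb z hz).2.2) fun z hz => ?_⟩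
    have e : Real.exp (3 * Real.log Q) = Q ^ 3 := by
      rw [show (3 : ℝ) = (3 : ℕ) by norm_num, Real.exp_nat_mul, Real.exp_log hQ0]
    rw [e]
    calc _ ≤ 10 * (y ^ 2 + 1) * Q := (h z (hb z hz).1 (hb z hz).2.1 (hb z hz).2.2).2
      _ = 20 * (y ^ 2 + 1) * (Q / 2) := by ring
      _ ≤ Q * (Q / 2) := by gcongr
      _ = Q ^ 3 * (1 / (2 * Q)) := by field_simp
      _ ≤ _ := by gcongr; exact (h s s1 s2 s3).1

theorem tail_bound {σ ε : ℝ} (h0 : 1 / 2 < σ) (h1 : σ < 1) (hε : 0 < ε) :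
    ∃ c : ℝ, 0 < c ∧ ∃ V₀ : ℝ, ∀ᶠ Q : ℕ in atTop, ∀ V : ℝ, V₀ ≤ V →
      cnt Q (Bad σ V) ≤ (Q : ℝ) ^ 2 * Real.exp (-(c * V ^ (1 / (1 - σ)) / Real.log V))
        + (Q : ℝ) ^ (3 - 2 * σ + ε) := by
  obtain ⟨η, hη, hη1, hη2⟩ : ∃ η : ℝ, 0 < η ∧ 8 * η ≤ 2 * σ - 1 ∧ 6 * η ≤ ε :=
    ⟨min ((2 * σ - 1) / 8) (ε / 6), lt_min (by linarith) (by linarith),
      by linarith [min_le_left ((2 * σ - 1) / 8) (ε / 6)],
      by linarith [min_le_right ((2 * σ - 1) / 8) (ε / 6)]⟩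
  obtain ⟨C, hC1, hC⟩ := exists_short h0 h1 hη hη1
  obtain ⟨C', hC'⟩ := exists_good (σ₀ := σ - 2 * η) (by linarith) (by linarith) hη
  have hs : 0 < 1 - σ := by linarith
  refine ⟨(1 - σ) / (4 * C ^ (1 / (1 - σ))), by positivity, 2 * C, ?_⟩
  have hT : Tendsto (fun Q : ℕ => Real.log Q) atTop atTop :=
    Real.tendsto_log_atTop.comp tendsto_natCast_atTop_atTop
  filter_upwards [hT.eventually (exists_length hη), few_divisors hη (by linarith),
    hT.eventually_ge_atTop (72 / η ^ 3), eventually_ge_atTop 2,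
    hT.eventually ((tendsto_exp_mul_div_rpow_atTop (16 / η) η hη).eventually_ge_atTop
      ((16 * |C'| + 40) * 4 ^ 8))] with Q ⟨J, hJ1, hJ2, hJ3, hJ4⟩ hD hL hQ2 hP V hV
  obtain ⟨j, hj1, hj2, hj3⟩ := exists_cut (by linarith) h1 hC1 hV
  have hQ0 : (0 : ℝ) < Q := by positivity
  have hQ1 : (1 : ℝ) ≤ Q := by exact_mod_cast (by omega : 1 ≤ Q)
  have hL0 : 0 < Real.log Q := lt_of_lt_of_le (by positivity) hL
  set y : ℝ := 2 ^ J with hy
  have hy2 : 2 ≤ y := le_self_pow₀ (by norm_num) (by omega)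
  have hJy : (J : ℝ) ≤ y := by rw [hy]; exact_mod_cast Nat.lt_two_pow_self.le
  have hy8 : (16 * |C'| + 40) * y ^ 8 ≤ (Q : ℝ) ^ η := by
    clear * - C' J Q η hL0 hJ3 hQ0 hP
    rw [le_div_iff₀ (by positivity), mul_comm η, ← Real.rpow_def_of_pos hQ0] at hP
    refine le_trans ?_ hP
    have e : Real.log Q ^ (16 / η) = (Real.log Q ^ (2 / η)) ^ 8 := by
      rw [← Real.rpow_natCast, ← Real.rpow_mul hL0.le]; congr 1; push_cast; ring
    rw [e, mul_assoc, ← mul_pow]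
    gcongr
  have hy28 : y ^ 2 ≤ y ^ 8 := pow_le_pow_right₀ (by linarith) (by norm_num)
  have hy21 : y ^ 2 + 1 ≤ 2 * y ^ 2 := by clear * - y Q η J hy2 hJ2 hJ3; nlinarith
  have hC0 : 0 ≤ |C'| * y ^ 8 := by positivity
  obtain ⟨G, hG1, hG2⟩ := hC' Q hQ2 (y ^ 2 + 1) (by clear * - y σ η J h1 hη hη1 hy21 Q hC' hQ2; nlinarith)
  have hS := hC y (by linarith) Q J j (by omega) hj1 fun m hm0 hm => hD m hm0 (hm.trans (by
    rw [Real.rpow_add hL0, Real.rpow_one, mul_comm]; gcongr))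
  refine le_trans (cnt_mono (P' := fun q χ => q = 1 ∨ ¬ G q χ ∨ C * ((2 : ℝ) ^ j) ^ (1 - σ) <
    1 + ‖∑ n ∈ range (2 ^ J), ((wt σ y n : ℝ) : ℂ) * χ (n : ZMod q)‖) fun q hq1 hq2 χ hχ hB => ?_) ?_
  · by_contra hne
    push Not at hne
    obtain ⟨a1, a2, a3⟩ := hne
    obtain ⟨_, hB⟩ := hB
    have hq : 2 ≤ q := by omega
    have hχ1 : χ ≠ 1 := fun e => by
      rw [e, DirichletCharacter.isPrimitive_def, DirichletCharacter.conductor_one] at hχ
      omega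
    have hQη : (Q : ℝ) ^ η ≤ Q := Real.rpow_le_self_of_one_le hQ1 (by clear * - η σ h1 hη hη1 Q hQ1; linarith)
    obtain ⟨b1, b2⟩ := good_bound hχ1 h0 h1 hη (by linarith) hy2 hQ0 (by linarith) hL hJ2
      (hG2 q hq hq2 χ hχ a2) (K := 2 ^ J) (by rw [hy]; norm_cast)
    exact hB ⟨b1, b2.trans (a3.trans hj2)⟩
  · refine (cnt_or Q _ _).trans ((add_le_add (cnt_one Q) ((cnt_or Q _ _).trans
      (add_le_add hG1 hS))).trans ?_)
    have e1 : (Q : ℝ) ^ 2 * Real.exp (-((2 : ℝ) ^ j / j)) ≤ (Q : ℝ) ^ 2 * Real.exp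
        (-((1 - σ) / (4 * C ^ (1 / (1 - σ))) * V ^ (1 / (1 - σ)) / Real.log V)) := by gcongr
    set R : ℝ := (Q : ℝ) ^ (3 - 2 * (σ - 2 * η) + η) with hR
    have e2 : 1 ≤ R := Real.one_le_rpow hQ1 (by clear * - σ η h1 hη hη1 R hQ1; linarith)
    have e3 : (Q : ℝ) ^ (3 - 2 * σ + 3 * η) ≤ R := Real.rpow_le_rpow_of_exponent_le hQ1 (by linarith)
    have e4 : (Q : ℝ) ^ η * R ≤ (Q : ℝ) ^ (3 - 2 * σ + ε) := by
      clear * - Q η R σ ε hR hQ0 hQ1 hη2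
      rw [hR, ← Real.rpow_add hQ0]
      exact Real.rpow_le_rpow_of_exponent_le hQ1 (by linarith)
    have e5 : C' * (y ^ 2 + 1) ^ 4 * R ≤ 16 * |C'| * y ^ 8 * R := by
      clear * - C' y R J hy21 Q hQ2 σ η
      calc _ ≤ |C'| * (2 * y ^ 2) ^ 4 * R := by gcongr; exact le_abs_self _
        _ = _ := by ring
    have e6 : J * ((y + 1) * (Q : ℝ) ^ (3 - 2 * σ + 3 * η)) ≤ 2 * y ^ 8 * R := by
      clear * - J y Q σ η R hJy h1 hη hη1 hy2 e3 hQ2 hy28
      calc _ ≤ y * ((2 * y) * R) := by gcongr; linarith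
        _ = 2 * y ^ 2 * R := by ring
        _ ≤ _ := by gcongr
    have e7 : 1 ≤ y ^ 8 * R := one_le_mul_of_one_le_of_one_le (one_le_pow₀ (by clear * - y σ η J h1 hη hη1 hy2 R e2; linarith)) e2
    have e8 : (16 * |C'| + 40) * y ^ 8 * R ≤ (Q : ℝ) ^ η * R := by gcongr
    clear * - C' y R Q j J σ η C V ε h1 hη hη1 e1 e4 e5 e6 e7 e8
    nlinarith

end Pool.Agent.Work.MP_814e7e_nt
end
end
end
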